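import Pool.Agent.J4H16.AS.Defs3

/-!
# Project AS (helper16), jobs BASE, BASE2 (helper79)
-/

set_option autoImplicit false
set_option linter.all false
open Set Filter Topology Metric Complex MeasureTheory
open scoped ComplexConjugate

namespace Pool.Agent.J4H79.AS

open Pool.Agent.J4H16 Pool.Agent.W746.LD Pool.Agent.J4H16.AS

theorem t_BASE2 : Pool.Agent.J4H16.AS.S_BASE2 := by
  intro n c x r ν A U σ C C1 κ1 ρ0 q hC1 hκ1 hρ0 hq hE1 hD
  obtain ⟨κ, hκdef⟩ : ∃ κ : ℝ, κ = min κ1 C1 := ⟨_, rfl⟩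
  have hκ : 0 < κ := by rw [hκdef]; exact lt_min hκ1 hC1
  have hκκ : κ ≤ κ1 := by rw [hκdef]; exact min_le_left _ _
  have hκC : κ ≤ C1 := by rw [hκdef]; exact min_le_right _ _
  have hE : ∀ ρ : ℝ, 0 < ρ → ρ ≤ ρ0 → ∃ (l : ℕ) (g : ℂ → ℂ), Br n c l (orb n c x l) (κ * ρ) g ∧
      g (orb n c x l) = x ∧ ‖orb n c x l‖ ≤ C1 * ρ ∧ ∀ i < l, ρ ≤ ‖orb n c x i‖ := by
    intro ρ h1 h2
    obtain ⟨l, g, h3, h4⟩ := hE1 ρ h1 h2
    have hsub : ball (orb n c x l) (κ * ρ) ⊆ ball (orb n c x l) (κ1 * ρ) :=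
      ball_subset_ball (mul_le_mul_of_nonneg_right hκκ h1.le)
    exact ⟨l, g, ⟨h3.diff.mono hsub, fun w hw => h3.eq w (hsub hw)⟩, h4⟩
  obtain ⟨C0, c0, K⟩ := exists_KC
  have hC0 := K.one_le
  have hκq : 0 < κ * q := mul_pos hκ hq
  have hev : ∀ᶠ j in (U : Filter ℕ), q * σ j ≤ ρ0 := by
    have h1 : Tendsto (fun j => q * σ j) (U : Filter ℕ) (𝓝 0) := by simpa using C.lim.const_mul q
    exact (h1.eventually (Iio_mem_nhds hρ0)).mono fun j hj => le_of_lt hj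
  have key : ∀ᶠ j in (U : Filter ℕ), ∃ P : ℕ × (ℂ → ℂ),
      Br n c P.1 (orb n c x P.1) (κ * (q * σ j)) P.2 ∧ P.2 (orb n c x P.1) = x ∧
      ‖orb n c x P.1‖ ≤ C1 * (q * σ j) ∧ ∀ i < P.1, q * σ j ≤ ‖orb n c x i‖ := by
    filter_upwards [hev] with j hj
    obtain ⟨l, g, h⟩ := hE (q * σ j) (mul_pos hq (C.pos j)) hj
    exact ⟨(l, g), h⟩
  obtain ⟨P, hP⟩ := key.choice
  set Y : ℕ → ℂ := fun j => orb n c x (P j).1 / σ j with hY
  have hYb : ∀ᶠ j in (U : Filter ℕ), Y j ∈ closedBall (0 : ℂ) (C1 * q) := by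
    filter_upwards [hP] with j hj
    rw [mem_closedBall, dist_zero_right]
    simp only [hY]
    rw [norm_div, Complex.norm_real, Real.norm_of_nonneg (C.pos j).le, div_le_iff₀ (C.pos j)]
    have := hj.2.2.1
    linarith
  obtain ⟨Y0, hYm, hY0⟩ := (isCompact_closedBall (0 : ℂ) (C1 * q)).ultrafilter_le_nhds
      (U.map Y) (by rw [Filter.le_principal_iff]; exact hYb)
  have hY0' : Tendsto Y (U : Filter ℕ) (𝓝 Y0) := hY0
  obtain ⟨Z0, hZ0, hZ0'⟩ := hD Y0 (κ * q / 100) (by positivity)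
  rw [mem_ball, dist_eq_norm] at hZ0
  have hclose : ∀ᶠ j in (U : Filter ℕ), ‖Y j - Y0‖ < κ * q / 100 := by
    have := (Metric.tendsto_nhds.1 hY0') (κ * q / 100) (by positivity)
    simpa only [dist_eq_norm] using this
  have hdist : ∀ᶠ j in (U : Filter ℕ), ‖Z0 - Y j‖ ≤ κ * q / 4 := by
    filter_upwards [hclose] with j hj
    have e : Z0 - Y j = (Z0 - Y0) - (Y j - Y0) := by ring
    rw [e]
    refine (norm_sub_le _ _).trans ?_
    linarith
  refine ⟨fun j => (P j).1, Z0, 3 * (κ * q) / 4, C0 ^ 2 * (0 + κ * q),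
    fun j W => (P j).2 (σ j * W), hZ0', by positivity, by positivity, ?_, ?_, ?_⟩
  · rw [mem_closedBall, dist_zero_right] at hYm
    have h1 : ‖Z0‖ ≤ ‖Z0 - Y0‖ + ‖Y0‖ := by
      have := norm_add_le (Z0 - Y0) Y0
      rwa [sub_add_cancel] at this
    have h2 : κ * q ≤ C1 * q := mul_le_mul_of_nonneg_right hκC hq.le
    linarith
  · unfold GS
    filter_upwards [hP, hdist] with j hj hc
    have hs := C.pos j
    have hsC : (σ j : ℂ) ≠ 0 := by exact_mod_cast hs.ne'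
    have e1 : (σ j : ℂ) * Y j = orb n c x (P j).1 := by simp only [hY]; field_simp
    have hb : Br n c (P j).1 ((σ j : ℂ) * Y j) (σ j * (κ * q)) (P j).2 := by
      rw [e1, show σ j * (κ * q) = κ * (q * σ j) by ring]
      exact hj.1
    have hsb : SB n c x (σ j) (P j).1 (Y j) (κ * q) 0 (fun W => (P j).2 (σ j * W)) := by
      apply SB.of_br hs hb hκq
      rw [e1, hj.2.1]
      simp
    exact hsb.move K hs hκq le_rfl hc
  · filter_upwards [hP, hdist] with j hj hc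
    have hs := C.pos j
    have hsC : (σ j : ℂ) ≠ 0 := by exact_mod_cast hs.ne'
    have e1 : (σ j : ℂ) * (orb n c x (P j).1 / σ j) = orb n c x (P j).1 := by field_simp
    refine ⟨hj.2.2.1, hj.2.2.2, ?_, ?_⟩
    · rw [mem_ball, dist_eq_norm, norm_sub_rev]
      have : ‖Z0 - orb n c x (P j).1 / σ j‖ ≤ κ * q / 4 := hc
      linarith
    · show (P j).2 ((σ j : ℂ) * (orb n c x (P j).1 / σ j)) = x
      rw [e1]
      exact hj.2.1

theorem t_BASE : Pool.Agent.J4H16.AS.S_BASE := by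
  intro n c x r ν A U σ C C1 κ ρ0 q hC1 hκ hρ0 hq hE hD
  obtain ⟨l, Z0, d, M, G, h1, h2, h3, -, h5⟩ := t_BASE2 n c x r ν A U σ C C1 κ ρ0 q hC1 hκ hρ0 hq hE hD
  exact ⟨l, Z0, d, M, G, h1, h2, h3, h5⟩

end Pool.Agent.J4H79.AS
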