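import Mathlib

set_option autoImplicit false
set_option linter.all false

/-!
# Project AS (helper16), job S_POT (helper79), part 1: radial functions, polar coordinates, `∂̄`
-/

open Set Filter Topology Metric Complex MeasureTheory
open scoped ComplexConjugate

namespace Pool.Agent.J4H79.AS

/-! ### Profiles -/

/-- `1` for `x ≤ s`, `0` for `x ≥ t` -/
noncomputable def prof (s t x : ℝ) : ℝ := Real.smoothTransition ((t - x) / (t - s))

lemma prof_contDiff (s t : ℝ) : ContDiff ℝ 1 (prof s t) := by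
  unfold prof
  exact (Real.smoothTransition.contDiff (n := 1)).comp (by fun_prop)

lemma prof_one {s t x : ℝ} (hst : s < t) (hx : x ≤ s) : prof s t x = 1 := by
  unfold prof
  apply Real.smoothTransition.one_of_one_le
  rw [le_div_iff₀ (by linarith)]
  linarith

lemma prof_zero {s t x : ℝ} (hst : s < t) (hx : t ≤ x) : prof s t x = 0 := by
  unfold prof
  apply Real.smoothTransition.zero_of_nonpos
  exact div_nonpos_of_nonpos_of_nonneg (by linarith) (by linarith)

lemma prof_nonneg (s t x : ℝ) : 0 ≤ prof s t x := Real.smoothTransition.nonneg _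

lemma prof_le_one (s t x : ℝ) : prof s t x ≤ 1 := Real.smoothTransition.le_one _

lemma prof_anti {s t : ℝ} (hst : s < t) : Antitone (prof s t) := by
  intro x y hxy
  unfold prof
  apply Real.smoothTransition.monotone
  have : 0 < t - s := by linarith
  gcongr

lemma prof_deriv {s t : ℝ} (hst : s < t) (x : ℝ) : deriv (prof s t) x ≤ 0 :=
  (prof_anti hst).deriv_nonpos

lemma prof_deriv_cont (s t : ℝ) : Continuous (deriv (prof s t)) :=
  (prof_contDiff s t).continuous_deriv le_rfl

lemma prof_hasDeriv (s t x : ℝ) : HasDerivAt (prof s t) (deriv (prof s t) x) x :=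
  ((prof_contDiff s t).differentiable (by simp) x).hasDerivAt

lemma prof_deriv_gt {s t x : ℝ} (hst : s < t) (hx : t < x) : deriv (prof s t) x = 0 := by
  have h : prof s t =ᶠ[𝓝 x] fun _ => 0 := by
    filter_upwards [lt_mem_nhds hx] with y hy
    exact prof_zero hst hy.le
  rw [h.deriv_eq, deriv_const]

lemma prof_deriv_lt {s t x : ℝ} (hst : s < t) (hx : x < s) : deriv (prof s t) x = 0 := by
  have h : prof s t =ᶠ[𝓝 x] fun _ => 1 := by
    filter_upwards [gt_mem_nhds hx] with y hy
    exact prof_one hst hy.le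
  rw [h.deriv_eq, deriv_const]

lemma prof_deriv_ge {s t x : ℝ} (hst : s < t) (hx : t ≤ x) : deriv (prof s t) x = 0 := by
  rcases hx.eq_or_lt with h | h
  · subst h
    have h1 : Tendsto (deriv (prof s t)) (𝓝[>] t) (𝓝 (deriv (prof s t) t)) :=
      (prof_deriv_cont s t).continuousAt.mono_left nhdsWithin_le_nhds
    have h2 : Tendsto (deriv (prof s t)) (𝓝[>] t) (𝓝 0) := by
      refine tendsto_const_nhds.congr' ?_
      filter_upwards [self_mem_nhdsWithin] with y hy
      exact (prof_deriv_gt hst hy).symm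
    exact tendsto_nhds_unique h1 h2
  · exact prof_deriv_gt hst h

lemma prof_deriv_le {s t x : ℝ} (hst : s < t) (hx : x ≤ s) : deriv (prof s t) x = 0 := by
  rcases hx.eq_or_lt with h | h
  · subst h
    have h1 : Tendsto (deriv (prof x t)) (𝓝[<] x) (𝓝 (deriv (prof x t) x)) :=
      (prof_deriv_cont x t).continuousAt.mono_left nhdsWithin_le_nhds
    have h2 : Tendsto (deriv (prof x t)) (𝓝[<] x) (𝓝 0) := by
      refine tendsto_const_nhds.congr' ?_
      filter_upwards [self_mem_nhdsWithin] with y hy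
      exact (prof_deriv_lt hst hy).symm
    exact tendsto_nhds_unique h1 h2
  · exact prof_deriv_lt hst h

/-! ### Radial functions -/

/-- the radial function with profile `h` -/
noncomputable def rf (h : ℝ → ℝ) (b z : ℂ) : ℂ := ((h (‖z - b‖ ^ 2) : ℝ) : ℂ)

/-- its `∂̄` -/
noncomputable def rd (h : ℝ → ℝ) (b z : ℂ) : ℂ := ((deriv h (‖z - b‖ ^ 2) : ℝ) : ℂ) * (z - b)

/-- `∂̄` -/
noncomputable def db (f : ℂ → ℂ) (z : ℂ) : ℂ := (fderiv ℝ f z 1 + I * fderiv ℝ f z I) / 2

lemma rf_cont {s t : ℝ} (b : ℂ) : Continuous (rf (prof s t) b) := by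
  unfold rf
  exact continuous_ofReal.comp ((prof_contDiff s t).continuous.comp (by fun_prop))

lemma rd_cont {s t : ℝ} (b : ℂ) : Continuous (rd (prof s t) b) := by
  unfold rd
  exact (continuous_ofReal.comp ((prof_deriv_cont s t).comp (by fun_prop))).mul (by fun_prop)

lemma rf_hasFDeriv (s t : ℝ) (b z : ℂ) : ∃ L : ℂ →L[ℝ] ℂ, HasFDerivAt (rf (prof s t) b) L z ∧
    ∀ v : ℂ, L v = ((deriv (prof s t) (‖z - b‖ ^ 2) * (2 * (conj (z - b) * v).re) : ℝ) : ℂ) := by
  have h1 : HasFDerivAt (fun z : ℂ => ‖z - b‖ ^ 2) (2 • (innerSL ℝ (z - b))) z := by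
    have h2 := (hasStrictFDerivAt_norm_sq (z - b)).hasFDerivAt
    have h3 : HasFDerivAt (fun z : ℂ => z - b) (ContinuousLinearMap.id ℝ ℂ) z :=
      (hasFDerivAt_id z).sub_const b
    have h4 := h2.comp z h3
    rw [ContinuousLinearMap.comp_id] at h4
    exact h4
  have h5 := (prof_hasDeriv s t (‖z - b‖ ^ 2)).comp_hasFDerivAt z h1
  have h6 := Complex.ofRealCLM.hasFDerivAt.comp z h5
  refine ⟨_, h6, fun v => ?_⟩
  simp only [ContinuousLinearMap.comp_apply, ContinuousLinearMap.smul_apply, innerSL_apply_apply,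
    Complex.ofRealCLM_apply, smul_eq_mul, Complex.inner]
  push_cast
  simp
  left
  ring

lemma db_rf (s t : ℝ) (b z : ℂ) : db (rf (prof s t) b) z = rd (prof s t) b z := by
  obtain ⟨L, h1, h2⟩ := rf_hasFDeriv s t b z
  unfold db rd
  rw [h1.fderiv, h2, h2]
  set d := deriv (prof s t) (‖z - b‖ ^ 2)
  apply Complex.ext <;> simp [Complex.mul_re, Complex.mul_im] <;> ring

lemma rf_diff (s t : ℝ) (b : ℂ) : Differentiable ℝ (rf (prof s t) b) := fun z => by
  obtain ⟨L, h1, -⟩ := rf_hasFDeriv s t b z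
  exact h1.differentiableAt

lemma rf_fderiv_cont (s t : ℝ) (b v : ℂ) : Continuous (fun z => fderiv ℝ (rf (prof s t) b) z v) := by
  have h : (fun z => fderiv ℝ (rf (prof s t) b) z v) = fun z =>
      ((deriv (prof s t) (‖z - b‖ ^ 2) * (2 * (conj (z - b) * v).re) : ℝ) : ℂ) := by
    funext z
    obtain ⟨L, h1, h2⟩ := rf_hasFDeriv s t b z
    rw [h1.fderiv, h2]
  rw [h]
  refine continuous_ofReal.comp ?_
  refine ((prof_deriv_cont s t).comp (by fun_prop)).mul ?_
  refine continuous_const.mul (Complex.continuous_re.comp ?_)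
  exact (Complex.continuous_conj.comp (by fun_prop)).mul continuous_const

lemma rf_zero {s t : ℝ} (hst : s < t) {b z : ℂ} (h : t ≤ ‖z - b‖ ^ 2) : rf (prof s t) b z = 0 := by
  unfold rf; rw [prof_zero hst h]; simp

lemma rd_zero {s t : ℝ} (hst : s < t) {b z : ℂ} (h : t ≤ ‖z - b‖ ^ 2) : rd (prof s t) b z = 0 := by
  unfold rd; rw [prof_deriv_ge hst h]; simp

lemma rd_zero' {s t : ℝ} (hst : s < t) {b z : ℂ} (h : ‖z - b‖ ^ 2 ≤ s) : rd (prof s t) b z = 0 := by
  unfold rd; rw [prof_deriv_le hst h]; simp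

lemma supp_of {f : ℂ → ℂ} {b : ℂ} {t : ℝ} (h : ∀ z, t ≤ ‖z - b‖ ^ 2 → f z = 0) :
    HasCompactSupport f := by
  apply HasCompactSupport.of_support_subset_isCompact (isCompact_closedBall b (Real.sqrt |t|))
  intro z hz
  by_contra hn
  apply hz
  apply h
  rw [mem_closedBall, dist_eq_norm, not_le] at hn
  have h1 : Real.sqrt |t| ^ 2 ≤ ‖z - b‖ ^ 2 := pow_le_pow_left₀ (Real.sqrt_nonneg _) hn.le 2
  rw [Real.sq_sqrt (abs_nonneg t)] at h1
  exact (le_abs_self t).trans h1

lemma rf_supp {s t : ℝ} (hst : s < t) (b : ℂ) : HasCompactSupport (rf (prof s t) b) :=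
  supp_of fun z hz => rf_zero hst hz

lemma rd_supp {s t : ℝ} (hst : s < t) (b : ℂ) : HasCompactSupport (rd (prof s t) b) :=
  supp_of fun z hz => rd_zero hst hz

/-- integration by parts -/
lemma ibp {s t s' t' : ℝ} (hst : s < t) (hst' : s' < t') (b b' : ℂ) :
    ∫ a, rf (prof s t) b a * rd (prof s' t') b' a =
      -∫ a, rd (prof s t) b a * rf (prof s' t') b' a := by
  set f := rf (prof s t) b with hf
  set g := rf (prof s' t') b' with hg
  have key : ∀ v : ℂ, ∫ x, f x * fderiv ℝ g x v = - ∫ x, fderiv ℝ f x v * g x ∧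
      Integrable (fun x => f x * fderiv ℝ g x v) ∧ Integrable (fun x => fderiv ℝ f x v * g x) := by
    intro v
    have i1 : Integrable (fun x => fderiv ℝ f x v * g x) :=
      ((rf_fderiv_cont s t b v).mul (rf_cont b')).integrable_of_hasCompactSupport
        ((rf_supp hst' b').mul_left)
    have i2 : Integrable (fun x => f x * fderiv ℝ g x v) :=
      ((rf_cont b).mul (rf_fderiv_cont s' t' b' v)).integrable_of_hasCompactSupport
        ((rf_supp hst b).mul_right)
    have i3 : Integrable (fun x => f x * g x) :=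
      ((rf_cont b).mul (rf_cont b')).integrable_of_hasCompactSupport ((rf_supp hst b).mul_right)
    exact ⟨integral_mul_fderiv_eq_neg_fderiv_mul_of_integrable i1 i2 i3
      (fun x _ => rf_diff s t b x) (fun x _ => rf_diff s' t' b' x), i2, i1⟩
  obtain ⟨h1, j1, k1⟩ := key 1
  obtain ⟨h2, j2, k2⟩ := key I
  have e1 : (fun a => f a * rd (prof s' t') b' a) =
      fun a => (1 / 2 : ℂ) * (f a * fderiv ℝ g a 1) + (I / 2) * (f a * fderiv ℝ g a I) := by
    funext a
    rw [← db_rf, db]
    ring
  have e2 : (fun a => rd (prof s t) b a * g a) =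
      fun a => (1 / 2 : ℂ) * (fderiv ℝ f a 1 * g a) + (I / 2) * (fderiv ℝ f a I * g a) := by
    funext a
    rw [← db_rf, db]
    ring
  rw [e1, e2, integral_add (j1.const_mul _) (j2.const_mul _), integral_add (k1.const_mul _) (k2.const_mul _),
    integral_const_mul, integral_const_mul, integral_const_mul, integral_const_mul, h1, h2]
  ring

/-! ### Polar coordinates -/

lemma polar_symm (p : ℝ × ℝ) : Complex.polarCoord.symm p = circleMap 0 p.1 p.2 := by
  rw [Complex.polarCoord_symm_apply]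
  simp only [circleMap, Complex.exp_mul_I, Complex.ofReal_cos, Complex.ofReal_sin, zero_add]

lemma polar_integrable {f : ℂ → ℂ} (hf : Integrable f) :
    IntegrableOn (fun p : ℝ × ℝ => p.1 • f (Complex.polarCoord.symm p)) polarCoord.target := by
  have h1 : Integrable (fun p : ℝ × ℝ => f (Complex.measurableEquivRealProd.symm p)) :=
    (Complex.volume_preserving_equiv_real_prod.symm.integrable_comp_emb
      Complex.measurableEquivRealProd.symm.measurableEmbedding).2 hf
  have h2 := (integrableOn_image_iff_integrableOn_abs_det_fderiv_smul (volume : Measure (ℝ × ℝ))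
    polarCoord.open_target.measurableSet (fun x _ => (hasFDerivAt_polarCoord_symm x).hasFDerivWithinAt)
    polarCoord.symm.injOn (fun p : ℝ × ℝ => f (Complex.measurableEquivRealProd.symm p))).1
    (h1.integrableOn)
  refine h2.congr_fun (fun p hp => ?_) polarCoord.open_target.measurableSet
  have hp1 : 0 < p.1 := hp.1
  simp only
  rw [det_fderivPolarCoordSymm, abs_of_pos hp1]
  congr 2

lemma avg_eq (f : ℂ → ℂ) (c : ℂ) (r : ℝ) :
    ∫ θ in Ioo (-Real.pi) Real.pi, f (circleMap c r θ) = (2 * Real.pi) • Real.circleAverage f c r := by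
  rw [Real.circleAverage_eq_integral_add (-Real.pi),
        intervalIntegral.integral_comp_add_right (fun x => f (circleMap c r x)),
        ← integral_Ioc_eq_integral_Ioo, ← intervalIntegral.integral_of_le (by
          linarith [Real.pi_pos])]
  have : (2 * Real.pi + -Real.pi) = Real.pi := by ring
  rw [this, zero_add, smul_smul]
  have hπ := Real.pi_pos
  have : 2 * Real.pi * (2 * Real.pi)⁻¹ = 1 := by field_simp
  rw [this, one_smul]

/-- polar coordinates about any point -/
lemma polar_gen {f : ℂ → ℂ} (hf : Integrable f) (c : ℂ) :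
    ∫ z, f z = ∫ r in Ioi (0 : ℝ), (2 * Real.pi * r) • Real.circleAverage f c r := by
  rw [← integral_add_left_eq_self f c]
  have hf' : Integrable (fun z => f (c + z)) := hf.comp_add_left c
  rw [← Complex.integral_comp_polarCoord_symm]
  have h1 := polar_integrable hf'
  rw [polarCoord_target] at h1 ⊢
  rw [Measure.volume_eq_prod] at h1 ⊢
  rw [setIntegral_prod _ h1]
  refine setIntegral_congr_fun measurableSet_Ioi fun r hr => ?_
  simp only
  rw [integral_smul]
  have h2 : ∀ θ : ℝ, f (c + Complex.polarCoord.symm (r, θ)) = f (circleMap c r θ) := by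
    intro θ
    rw [polar_symm]
    congr 1
    simp [circleMap]
  simp only [h2]
  rw [avg_eq, smul_smul, mul_comm r]

/-- circle averages with radial weights -/
lemma avg_rd (N : ℂ → ℂ) (w : ℝ → ℝ) (a : ℂ) {r : ℝ} (hr : 0 < r) :
    Real.circleAverage (fun z => N z * (((w (‖z - a‖ ^ 2) : ℝ) : ℂ) * (z - a))) a r =
      (w (r ^ 2) : ℂ) * ((2 * Real.pi * I)⁻¹ * ∮ z in C(a, r), N z) := by
  rw [Real.circleAverage_eq_circleIntegral hr.ne']
  have h1 : (∮ z in C(a, r), (z - a)⁻¹ • (N z * (((w (‖z - a‖ ^ 2) : ℝ) : ℂ) * (z - a)))) =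
      ∮ z in C(a, r), (w (r ^ 2) : ℂ) * N z := by
    refine circleIntegral.integral_congr hr.le fun z hz => ?_
    have hz1 : ‖z - a‖ = r := by rwa [mem_sphere, dist_eq_norm] at hz
    have hz0 : z - a ≠ 0 := by
      rw [← norm_pos_iff, hz1]; exact hr
    simp only [smul_eq_mul]
    rw [hz1]
    field_simp
  rw [h1, circleIntegral.integral_const_mul, smul_eq_mul]
  ring

lemma avg_rf (N : ℂ → ℂ) (w : ℝ → ℝ) (a : ℂ) {r : ℝ} (hr : 0 < r) :
    Real.circleAverage (fun z => N z * ((w (‖z - a‖ ^ 2) : ℝ) : ℂ)) a r =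
      (w (r ^ 2) : ℂ) * Real.circleAverage N a r := by
  have h1 : Real.circleAverage (fun z => N z * ((w (‖z - a‖ ^ 2) : ℝ) : ℂ)) a r =
      Real.circleAverage (fun z => (w (r ^ 2) : ℂ) • N z) a r := by
    refine Real.circleAverage_congr_sphere fun z hz => ?_
    have hz1 : ‖z - a‖ = r := by
      rwa [mem_sphere, dist_eq_norm, abs_of_pos hr] at hz
    simp only [smul_eq_mul]
    rw [hz1, mul_comm]
  rw [h1, Real.circleAverage_fun_smul, smul_eq_mul]

end Pool.Agent.J4H79.AS
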