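import Pool.Agent.J4H16.AS.Defs
import Pool.Agent.J4H79.AS.Pot0

set_option autoImplicit false
set_option linter.all false

/-!
# Project AS (helper16), job S_POT (helper79), part 2: superadditivity of the index
-/

open Set Filter Topology Metric Complex MeasureTheory
open scoped ComplexConjugate

namespace Pool.Agent.J4H79.AS

/-- Fubini -/
lemma fub {p q : ℂ → ℂ} (hp : Integrable p) (hq : Integrable q) (G : ℂ × ℂ → ℂ)
    (hG : Continuous G) (C : ℝ) (hC : ∀ x, ‖G x‖ ≤ C) :
    Integrable (fun x : ℂ × ℂ => p x.1 * q x.2 * G x) (volume.prod volume) :=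
  (hp.mul_prod hq).mul_bdd (c := C) hG.aestronglyMeasurable (Eventually.of_forall hC)

lemma rf_sub (h : ℝ → ℝ) (a z : ℂ) : rf h a z = rf h 0 (z - a) := by
  simp [rf]

lemma rd_sub (h : ℝ → ℝ) (a z : ℂ) : rd h a z = rd h 0 (z - a) := by
  simp [rd]

lemma rf_symm (h : ℝ → ℝ) (a z : ℂ) : rf h a z = rf h z a := by
  simp only [rf]
  rw [norm_sub_rev]

lemma rd_symm (h : ℝ → ℝ) (a z : ℂ) : rd h a z = -rd h z a := by
  simp only [rd]
  rw [norm_sub_rev a z]
  ring

lemma rf_bd {s t : ℝ} (hst : s < t) (a z : ℂ) : ‖rf (prof s t) a z‖ ≤ 1 := by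
  unfold rf
  rw [Complex.norm_real, Real.norm_of_nonneg (prof_nonneg s t _)]
  exact prof_le_one s t _

lemma rd_bd {s t : ℝ} (hst : s < t) : ∃ C : ℝ, ∀ a z : ℂ, ‖rd (prof s t) a z‖ ≤ C := by
  obtain ⟨C, hC⟩ := (rd_supp hst 0).exists_bound_of_continuous (rd_cont (s := s) (t := t) 0)
  exact ⟨C, fun a z => by rw [rd_sub]; exact hC _⟩

lemma rf_cont2 {s t : ℝ} : Continuous (fun x : ℂ × ℂ => rf (prof s t) x.1 x.2) := by
  have : (fun x : ℂ × ℂ => rf (prof s t) x.1 x.2) = fun x : ℂ × ℂ => rf (prof s t) 0 (x.2 - x.1) := by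
    funext x; rw [rf_sub]
  rw [this]
  exact (rf_cont 0).comp (by fun_prop)

lemma rd_cont2 {s t : ℝ} : Continuous (fun x : ℂ × ℂ => rd (prof s t) x.1 x.2) := by
  have : (fun x : ℂ × ℂ => rd (prof s t) x.1 x.2) = fun x : ℂ × ℂ => rd (prof s t) 0 (x.2 - x.1) := by
    funext x; rw [rd_sub]
  rw [this]
  exact (rd_cont 0).comp (by fun_prop)

/-- the smoothed index -/
noncomputable def psi (s t : ℝ) (M : ℂ → ℂ) (a : ℂ) : ℂ := ∫ z, M z * rd (prof s t) a z

/-- the constant -/
noncomputable def cc (s t : ℝ) : ℝ := ∫ r in Ioi (0 : ℝ), 2 * Real.pi * r * prof s t (r ^ 2)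

/-- the transport of the derivative -/
lemma step1 {s t s' t' : ℝ} (hst : s < t) (hst' : s' < t') (b : ℂ) {M : ℂ → ℂ} (hM : Integrable M) :
    Integrable (fun a => rf (prof s' t') b a * psi s t M a) ∧
    ∫ a, rf (prof s' t') b a * psi s t M a =
      ∫ a, rd (prof s' t') b a * ∫ z, M z * rf (prof s t) a z := by
  obtain ⟨C, hC⟩ := rd_bd hst
  have iφ : Integrable (rf (prof s' t') b) := (rf_cont b).integrable_of_hasCompactSupport (rf_supp hst' b)
  have idφ : Integrable (rd (prof s' t') b) := (rd_cont b).integrable_of_hasCompactSupport (rd_supp hst' b)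
  have F1 := fub iφ hM (fun x : ℂ × ℂ => rd (prof s t) x.1 x.2) rd_cont2 C (fun x => hC _ _)
  have F2 := fub idφ hM (fun x : ℂ × ℂ => rf (prof s t) x.1 x.2) rf_cont2 1 (fun x => rf_bd hst _ _)
  have e1 : ∀ a, ∫ z, rf (prof s' t') b a * M z * rd (prof s t) a z =
      rf (prof s' t') b a * psi s t M a := by
    intro a
    unfold psi
    rw [← integral_const_mul]
    congr 1
    funext z
    ring
  have e2 : ∀ a, ∫ z, rd (prof s' t') b a * M z * rf (prof s t) a z =
      rd (prof s' t') b a * ∫ z, M z * rf (prof s t) a z := by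
    intro a
    rw [← integral_const_mul]
    congr 1
    funext z
    ring
  refine ⟨?_, ?_⟩
  · have := F1.integral_prod_left
    simpa only [e1] using this
  · have s1 := integral_integral_swap
      (f := fun a z => rf (prof s' t') b a * M z * rd (prof s t) a z) F1
    have s2 := integral_integral_swap
      (f := fun a z => rd (prof s' t') b a * M z * rf (prof s t) a z) F2
    simp only [e1] at s1
    simp only [e2] at s2
    rw [s1, s2]
    refine integral_congr_ae (Eventually.of_forall fun z => ?_)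
    simp only
    have e3 : ∫ a, rf (prof s' t') b a * M z * rd (prof s t) a z =
        M z * ∫ a, rf (prof s' t') b a * rd (prof s t) a z := by
      rw [← integral_const_mul]
      congr 1
      funext a
      ring
    have e4 : ∫ a, rd (prof s' t') b a * M z * rf (prof s t) a z =
        M z * ∫ a, rd (prof s' t') b a * rf (prof s t) a z := by
      rw [← integral_const_mul]
      congr 1
      funext a
      ring
    rw [e3, e4]
    congr 1
    have e5 : ∀ a, rf (prof s' t') b a * rd (prof s t) a z = -(rf (prof s' t') b a * rd (prof s t) z a) := by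
      intro a
      rw [rd_symm]; ring
    have e6 : ∀ a, rd (prof s' t') b a * rf (prof s t) a z = rd (prof s' t') b a * rf (prof s t) z a := by
      intro a
      rw [rf_symm]
    simp only [e5, e6]
    rw [integral_neg, ibp hst' hst b z, neg_neg]

lemma mul_rf_int {s t : ℝ} (hst : s < t) {M : ℂ → ℂ} (hM : Integrable M) (a : ℂ) :
    Integrable (fun z => M z * rf (prof s t) a z) :=
  hM.mul_bdd (c := 1) (rf_cont a).aestronglyMeasurable (Eventually.of_forall fun z => rf_bd hst a z)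

lemma mul_rd_int {s t : ℝ} (hst : s < t) {M : ℂ → ℂ} (hM : Integrable M) (a : ℂ) :
    Integrable (fun z => M z * rd (prof s t) a z) := by
  obtain ⟨C, hC⟩ := rd_bd hst
  exact hM.mul_bdd (c := C) (rd_cont a).aestronglyMeasurable (Eventually.of_forall fun z => hC a z)

/-- the mean value property -/
lemma step2 {s ε : ℝ} (hε : 0 < ε) (hst : s < ε ^ 2) {M N : ℂ → ℂ} (hM : Integrable M) {a : ℂ}
    (hN : ∀ z, ‖z - a‖ < ε → DifferentiableAt ℂ N z) (hMN : ∀ z, ‖z - a‖ < ε → M z = N z) :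
    ∫ z, M z * rf (prof s (ε ^ 2)) a z = cc s (ε ^ 2) * N a := by
  rw [polar_gen (mul_rf_int hst hM a) a]
  have h1 : ∀ r ∈ Ioi (0 : ℝ), (2 * Real.pi * r) • Real.circleAverage
      (fun z => M z * rf (prof s (ε ^ 2)) a z) a r =
      ((2 * Real.pi * r * prof s (ε ^ 2) (r ^ 2) : ℝ) : ℂ) * N a := by
    intro r hr
    have hr0 : 0 < r := hr
    have e1 := avg_rf M (prof s (ε ^ 2)) a hr0
    have e2 : Real.circleAverage (fun z => M z * rf (prof s (ε ^ 2)) a z) a r =
        (prof s (ε ^ 2) (r ^ 2) : ℂ) * Real.circleAverage M a r := e1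
    rw [e2]
    rcases lt_or_ge r ε with h | h
    · have e3 : Real.circleAverage M a r = N a := by
        have e4 : Real.circleAverage M a r = Real.circleAverage N a r := by
          refine Real.circleAverage_congr_sphere fun z hz => ?_
          apply hMN
          rw [mem_sphere, dist_eq_norm, abs_of_pos hr0] at hz
          rw [hz]; exact h
        rw [e4]
        apply circleAverage_of_differentiable_on_off_countable (s := ∅) countable_empty
        · intro z hz
          rw [abs_of_pos hr0, mem_closedBall, dist_eq_norm] at hz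
          exact (hN z (hz.trans_lt h)).continuousAt.continuousWithinAt
        · rintro z ⟨hz, -⟩
          rw [abs_of_pos hr0, mem_ball, dist_eq_norm] at hz
          exact hN z (hz.trans h)
      rw [e3]
      simp only [real_smul]
      push_cast
      ring
    · have e3 : prof s (ε ^ 2) (r ^ 2) = 0 := prof_zero hst (pow_le_pow_left₀ hε.le h 2)
      rw [e3]
      simp
  rw [setIntegral_congr_fun measurableSet_Ioi h1, integral_mul_const, integral_complex_ofReal]
  rfl

/-- the total mass of the derivative of the profile -/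
lemma mass {s t : ℝ} (hst : s < t) (hs : 0 ≤ s) :
    ∫ r in Ioi (0 : ℝ), 2 * r * deriv (prof s t) (r ^ 2) = -1 := by
  have h1 : ∀ x ∈ Ici (0 : ℝ), HasDerivAt (fun r : ℝ => prof s t (r ^ 2))
      (2 * x * deriv (prof s t) (x ^ 2)) x := by
    intro x _
    have h2 := (prof_hasDeriv s t (x ^ 2)).comp x (hasDerivAt_pow 2 x)
    refine h2.congr_deriv ?_
    simp
    ring
  have hc : Continuous (fun r : ℝ => 2 * r * deriv (prof s t) (r ^ 2)) :=
    (by fun_prop : Continuous fun r : ℝ => 2 * r).mul ((prof_deriv_cont s t).comp (by fun_prop))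
  have hz : ∀ r : ℝ, t + 1 ≤ r → t ≤ r ^ 2 := by
    intro r hr
    have : 0 ≤ t := hs.trans hst.le
    nlinarith
  have hs1 : IntegrableOn (fun r : ℝ => 2 * r * deriv (prof s t) (r ^ 2)) (Ioi 0) := by
    have hs2 : HasCompactSupport (fun r : ℝ => 2 * r * deriv (prof s t) (r ^ 2)) := by
      apply HasCompactSupport.of_support_subset_isCompact (isCompact_Icc (a := -(t + 1)) (b := t + 1))
      intro r hr
      by_contra hn
      apply hr
      have h3 : t + 1 < |r| := by
        by_contra h4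
        push Not at h4
        exact hn (abs_le.1 h4)
      have h5 : t ≤ r ^ 2 := by
        rw [← sq_abs]; exact hz _ h3.le
      simp only
      rw [prof_deriv_ge hst h5, mul_zero]
    exact (hc.integrable_of_hasCompactSupport hs2).integrableOn
  have hlim : Tendsto (fun r : ℝ => prof s t (r ^ 2)) atTop (𝓝 0) := by
    refine tendsto_const_nhds.congr' ?_
    filter_upwards [eventually_ge_atTop (t + 1)] with r hr
    exact (prof_zero hst (hz r hr)).symm
  rw [integral_Ioi_of_hasDerivAt_of_tendsto' h1 hs1 hlim]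
  rw [prof_one hst (by simpa using hs)]
  norm_num

/-- the index as an integral over the plane -/
lemma step3 {Om : Set ℂ} (hOm : IsOpen Om) {M N : ℂ → ℂ} (hN : DifferentiableOn ℂ N Om)
    (hM : Integrable M) {b : ℂ} {r δ i ε s : ℝ} (hδ : 0 < δ) (hδr : δ < r) (hε : 0 < ε)
    (hεδ : ε ≤ δ / 2) (hst : s < ε ^ 2)
    (hcol : ∀ z, r - δ ≤ ‖z - b‖ → ‖z - b‖ ≤ r + δ → z ∈ Om ∧ M z = N z)
    (hI : (∮ z in C(b, r), N z) = -(2 * Real.pi * I * i)) :
    Integrable (fun a => rf (prof ((r - δ / 2) ^ 2) ((r + δ / 2) ^ 2)) b a * psi s (ε ^ 2) M a) ∧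
    ∫ a, rf (prof ((r - δ / 2) ^ 2) ((r + δ / 2) ^ 2)) b a * psi s (ε ^ 2) M a =
      Real.pi * cc s (ε ^ 2) * i := by
  have hst' : (r - δ / 2) ^ 2 < (r + δ / 2) ^ 2 := by nlinarith
  obtain ⟨hint, hs1⟩ := step1 hst hst' b hM
  refine ⟨hint, ?_⟩
  rw [hs1]
  have hlo : ∀ x : ℝ, 0 ≤ x → (r - δ / 2) ^ 2 < x ^ 2 → r - δ / 2 < x := by
    intro x hx h
    by_contra hcon
    push Not at hcon
    have := pow_le_pow_left₀ hx hcon 2
    linarith
  have hhi : ∀ x : ℝ, 0 ≤ x → x ^ 2 < (r + δ / 2) ^ 2 → x < r + δ / 2 := by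
    intro x hx h
    by_contra hcon
    push Not at hcon
    have := pow_le_pow_left₀ (by linarith) hcon 2
    linarith
  -- the mean value property
  have e1 : ∀ a, rd (prof ((r - δ / 2) ^ 2) ((r + δ / 2) ^ 2)) b a *
      ∫ z, M z * rf (prof s (ε ^ 2)) a z =
      cc s (ε ^ 2) * (M a * rd (prof ((r - δ / 2) ^ 2) ((r + δ / 2) ^ 2)) b a) := by
    intro a
    by_cases h0 : rd (prof ((r - δ / 2) ^ 2) ((r + δ / 2) ^ 2)) b a = 0
    · rw [h0]; simp
    have h1 : r - δ / 2 < ‖a - b‖ := by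
      apply hlo _ (norm_nonneg _)
      by_contra hcon
      push Not at hcon
      exact h0 (rd_zero' hst' hcon)
    have h3 : ‖a - b‖ < r + δ / 2 := by
      apply hhi _ (norm_nonneg _)
      by_contra hcon
      push Not at hcon
      exact h0 (rd_zero hst' hcon)
    have hz : ∀ z, ‖z - a‖ < ε → z ∈ Om ∧ M z = N z := by
      intro z hz
      apply hcol
      · have e2 : ‖a - b‖ ≤ ‖z - b‖ + ‖z - a‖ := by
          have : a - b = (z - b) - (z - a) := by ring
          rw [this]; exact norm_sub_le _ _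
        linarith
      · have e2 : ‖z - b‖ ≤ ‖a - b‖ + ‖z - a‖ := by
          have : z - b = (a - b) + (z - a) := by ring
          rw [this]; exact norm_add_le _ _
        linarith
    rw [step2 hε hst hM (N := N) (fun z h => hN.differentiableAt (hOm.mem_nhds (hz z h).1))
      (fun z h => (hz z h).2)]
    rw [(hz a (by rw [sub_self, norm_zero]; exact hε)).2]
    ring
  simp only [e1]
  rw [integral_const_mul]
  have e2 : ∫ a, M a * rd (prof ((r - δ / 2) ^ 2) ((r + δ / 2) ^ 2)) b a = Real.pi * i := by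
    rw [polar_gen (mul_rd_int hst' hM b) b]
    have h1 : ∀ ρ ∈ Ioi (0 : ℝ), (2 * Real.pi * ρ) • Real.circleAverage
        (fun z => M z * rd (prof ((r - δ / 2) ^ 2) ((r + δ / 2) ^ 2)) b z) b ρ =
        ((2 * ρ * deriv (prof ((r - δ / 2) ^ 2) ((r + δ / 2) ^ 2)) (ρ ^ 2) : ℝ) : ℂ) *
          (-(Real.pi * i)) := by
      intro ρ hρ
      have hρ0 : 0 < ρ := hρ
      have e3 : Real.circleAverage (fun z => M z * rd (prof ((r - δ / 2) ^ 2) ((r + δ / 2) ^ 2)) b z) b ρ =
          ((deriv (prof ((r - δ / 2) ^ 2) ((r + δ / 2) ^ 2)) (ρ ^ 2) : ℝ) : ℂ) *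
            ((2 * Real.pi * I)⁻¹ * ∮ z in C(b, ρ), M z) :=
        avg_rd M (deriv (prof ((r - δ / 2) ^ 2) ((r + δ / 2) ^ 2))) b hρ0
      rw [e3]
      by_cases h0 : deriv (prof ((r - δ / 2) ^ 2) ((r + δ / 2) ^ 2)) (ρ ^ 2) = 0
      · rw [h0]; simp
      have h3 : r - δ / 2 < ρ := by
        apply hlo _ hρ0.le
        by_contra hcon
        push Not at hcon
        exact h0 (prof_deriv_le hst' hcon)
      have h4 : ρ < r + δ / 2 := by
        apply hhi _ hρ0.le
        by_contra hcon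
        push Not at hcon
        exact h0 (prof_deriv_ge hst' hcon)
      have e4 : (∮ z in C(b, ρ), M z) = ∮ z in C(b, ρ), N z := by
        refine circleIntegral.integral_congr hρ0.le fun z hz => ?_
        rw [mem_sphere, dist_eq_norm] at hz
        exact (hcol z (by linarith) (by linarith)).2
      have e5 : (∮ z in C(b, ρ), N z) = ∮ z in C(b, r), N z := by
        have hann : ∀ x y : ℝ, 0 < x → x ≤ y → r - δ ≤ x → y ≤ r + δ →
            (∮ z in C(b, y), N z) = ∮ z in C(b, x), N z := by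
          intro x y hx hxy h5 h6
          refine circleIntegral_eq_of_differentiable_on_annulus_off_countable hx hxy countable_empty ?_ ?_
          · intro z hz
            have h7 : ‖z - b‖ ≤ y := by have := hz.1; rwa [mem_closedBall, dist_eq_norm] at this
            have h8 : x ≤ ‖z - b‖ := by
              have := hz.2; rwa [mem_ball, dist_eq_norm, not_lt] at this
            exact (hN.differentiableAt (hOm.mem_nhds
              (hcol z (by linarith) (by linarith)).1)).continuousAt.continuousWithinAt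
          · rintro z ⟨⟨h7, h8⟩, -⟩
            rw [mem_ball, dist_eq_norm] at h7
            rw [mem_closedBall, dist_eq_norm, not_le] at h8
            exact hN.differentiableAt (hOm.mem_nhds (hcol z (by linarith) (by linarith)).1)
        rcases le_total ρ r with h5 | h5
        · exact (hann ρ r hρ0 h5 (by linarith) (by linarith)).symm
        · exact hann r ρ (by linarith) h5 (by linarith) (by linarith)
      rw [e4, e5, hI]
      have hpi : (Real.pi : ℂ) ≠ 0 := by exact_mod_cast Real.pi_ne_zero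
      simp only [real_smul]
      push_cast
      field_simp
    rw [setIntegral_congr_fun measurableSet_Ioi h1, integral_mul_const, integral_complex_ofReal,
      mass hst' (sq_nonneg _)]
    push_cast
    ring
  rw [e2]
  ring

/-- the smoothed index is nonnegative -/
lemma psi_nonneg {s ε R : ℝ} (hε : 0 < ε) (hst : s < ε ^ 2) {M N : ℂ → ℂ} (hM : Integrable M) {a : ℂ}
    (haR : ‖a‖ + ε ≤ R) (haR' : ‖a‖ < R) (hMN : ∀ z, ‖z‖ < R → M z = N z)
    (hi : ∀ᵐ r : ℝ, 0 < r → r < R - ‖a‖ →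
      ∃ ι : ℝ, 0 ≤ ι ∧ (∮ z in C(a, r), N z) = -(2 * Real.pi * I * ι)) :
    0 ≤ (psi s (ε ^ 2) M a).re := by
  unfold psi
  rw [polar_gen (mul_rd_int hst hM a) a]
  have h1 : ∀ᵐ ρ ∂(volume.restrict (Ioi (0 : ℝ))), ∃ x : ℝ, 0 ≤ x ∧ (2 * Real.pi * ρ) • Real.circleAverage
        (fun z => M z * rd (prof s (ε ^ 2)) a z) a ρ = (x : ℂ) := by
    rw [ae_restrict_iff' measurableSet_Ioi]
    filter_upwards [hi] with ρ hρ hρ0
    have hρ0 : 0 < ρ := hρ0
    have e3 : Real.circleAverage (fun z => M z * rd (prof s (ε ^ 2)) a z) a ρ =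
          ((deriv (prof s (ε ^ 2)) (ρ ^ 2) : ℝ) : ℂ) *
            ((2 * Real.pi * I)⁻¹ * ∮ z in C(a, ρ), M z) :=
        avg_rd M (deriv (prof s (ε ^ 2))) a hρ0
    rw [e3]
    rcases lt_or_ge ρ ε with h | h
    · obtain ⟨ι, hι, e4⟩ := hρ hρ0 (by linarith)
      have e5 : (∮ z in C(a, ρ), M z) = ∮ z in C(a, ρ), N z := by
        refine circleIntegral.integral_congr hρ0.le fun z hz => ?_
        rw [mem_sphere, dist_eq_norm] at hz
        apply hMN
        have : ‖z‖ ≤ ‖a‖ + ‖z - a‖ := by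
          have e : z = a + (z - a) := by ring
          calc ‖z‖ = ‖a + (z - a)‖ := by rw [← e]
            _ ≤ _ := norm_add_le _ _
        linarith
      rw [e5, e4]
      refine ⟨2 * Real.pi * ρ * (-deriv (prof s (ε ^ 2)) (ρ ^ 2)) * ι, ?_, ?_⟩
      · have := prof_deriv hst (ρ ^ 2)
        have := Real.pi_pos
        have h5 : 0 ≤ -deriv (prof s (ε ^ 2)) (ρ ^ 2) := by linarith
        positivity
      · have hpi : (Real.pi : ℂ) ≠ 0 := by exact_mod_cast Real.pi_ne_zero
        simp only [real_smul]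
        push_cast
        field_simp
    · refine ⟨0, le_rfl, ?_⟩
      rw [prof_deriv_ge hst (pow_le_pow_left₀ hε.le h 2)]
      simp
  have h3 : ∀ᵐ ρ ∂(volume.restrict (Ioi (0 : ℝ))), (2 * Real.pi * ρ) • Real.circleAverage
        (fun z => M z * rd (prof s (ε ^ 2)) a z) a ρ = (((2 * Real.pi * ρ) • Real.circleAverage
        (fun z => M z * rd (prof s (ε ^ 2)) a z) a ρ).re : ℂ) := by
    filter_upwards [h1] with ρ hρ
    obtain ⟨x, -, hx⟩ := hρ
    rw [hx, ofReal_re]
  rw [integral_congr_ae h3, integral_complex_ofReal, ofReal_re]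
  apply integral_nonneg_of_ae
  filter_upwards [h1] with ρ hρ
  obtain ⟨x, hx0, hx⟩ := hρ
  rw [hx, ofReal_re]
  exact hx0

lemma cc_pos {s t : ℝ} (hs : 0 < s) (hst : s < t) : 0 < cc s t := by
  unfold cc
  have hcont : Continuous (fun r : ℝ => 2 * Real.pi * r * prof s t (r ^ 2)) :=
    (by fun_prop : Continuous fun r : ℝ => 2 * Real.pi * r).mul
      ((prof_contDiff s t).continuous.comp (by fun_prop))
  have hz : ∀ r : ℝ, t + 1 ≤ |r| → t ≤ r ^ 2 := by
    intro r hr
    have : 0 ≤ t := hs.le.trans hst.le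
    rw [← sq_abs]
    nlinarith
  have hint : IntegrableOn (fun r : ℝ => 2 * Real.pi * r * prof s t (r ^ 2)) (Ioi 0) := by
    have hs2 : HasCompactSupport (fun r : ℝ => 2 * Real.pi * r * prof s t (r ^ 2)) := by
      apply HasCompactSupport.of_support_subset_isCompact (isCompact_Icc (a := -(t + 1)) (b := t + 1))
      intro r hr
      by_contra hn
      apply hr
      have h3 : t + 1 < |r| := by
        by_contra h4
        push Not at h4
        exact hn (abs_le.1 h4)
      simp only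
      rw [prof_zero hst (hz r h3.le), mul_zero]
    exact (hcont.integrable_of_hasCompactSupport hs2).integrableOn
  have hpi := Real.pi_pos
  rw [setIntegral_pos_iff_support_of_nonneg_ae _ hint]
  · have hsub : Ioo (0 : ℝ) (Real.sqrt s) ⊆
        Function.support (fun r : ℝ => 2 * Real.pi * r * prof s t (r ^ 2)) ∩ Ioi 0 := by
      intro r hr
      refine ⟨?_, hr.1⟩
      have h1 : r ^ 2 ≤ s := by
        have := pow_le_pow_left₀ hr.1.le hr.2.le 2
        rwa [Real.sq_sqrt hs.le] at this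
      rw [Function.mem_support, prof_one hst h1, mul_one]
      have := hr.1
      positivity
    refine lt_of_lt_of_le ?_ (measure_mono hsub)
    rw [Real.volume_Ioo]
    simpa using hs
  · rw [EventuallyLE, ae_restrict_iff' measurableSet_Ioi]
    refine Eventually.of_forall fun r hr => ?_
    have hr0 : 0 < r := hr
    have := prof_nonneg s t (r ^ 2)
    simp only [Pi.zero_apply]
    positivity

theorem t_POT : Pool.Agent.J4H16.AS.S_POT := by
  intro N Om R hOm hN hNi hi b1 b2 r0 r1 r2 δ i0 i1 i2 hδ hδ0 hδ1 hδ2 hR hb1 hb2 hb12 hc0 hc1 hc2 hI0 hI1 hI2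
  set ε : ℝ := δ / 2 with hεdef
  have hε : 0 < ε := by positivity
  set s : ℝ := ε ^ 2 / 4 with hsdef
  have hs : 0 < s := by positivity
  have hst : s < ε ^ 2 := by
    have : 0 < ε ^ 2 := by positivity
    rw [hsdef]; linarith
  set M : ℂ → ℂ := (ball (0 : ℂ) R).indicator N with hMdef
  have hM : Integrable M := (integrable_indicator_iff measurableSet_ball).2 hNi
  have hMN : ∀ z, ‖z‖ < R → M z = N z := by
    intro z hz
    rw [hMdef, indicator_of_mem (by rwa [mem_ball_zero_iff])]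
  have nb : ∀ (z b : ℂ), ‖z‖ ≤ ‖b‖ + ‖z - b‖ := by
    intro z b
    have e : z = b + (z - b) := by ring
    calc ‖z‖ = ‖b + (z - b)‖ := by rw [← e]
      _ ≤ _ := norm_add_le _ _
  obtain ⟨j0, s0⟩ := step3 (b := 0) hOm hN hM (ε := ε) (s := s) hδ hδ0 hε le_rfl hst
    (fun z h1 h2 => by
      rw [sub_zero] at h1 h2
      exact ⟨hc0 z h1 h2, hMN z (by linarith)⟩) hI0
  obtain ⟨j1, s1⟩ := step3 (b := b1) hOm hN hM (ε := ε) (s := s) hδ hδ1 hε le_rfl hst
    (fun z h1 h2 => ⟨hc1 z h1 h2, hMN z (by have := nb z b1; linarith)⟩) hI1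
  obtain ⟨j2, s2⟩ := step3 (b := b2) hOm hN hM (ε := ε) (s := s) hδ hδ2 hε le_rfl hst
    (fun z h1 h2 => ⟨hc2 z h1 h2, hMN z (by have := nb z b2; linarith)⟩) hI2
  set p0 := prof ((r0 - δ / 2) ^ 2) ((r0 + δ / 2) ^ 2) with hp0
  set p1 := prof ((r1 - δ / 2) ^ 2) ((r1 + δ / 2) ^ 2) with hp1
  set p2 := prof ((r2 - δ / 2) ^ 2) ((r2 + δ / 2) ^ 2) with hp2
  have hq0 : (r0 - δ / 2) ^ 2 < (r0 + δ / 2) ^ 2 := by nlinarith
  have hq1 : (r1 - δ / 2) ^ 2 < (r1 + δ / 2) ^ 2 := by nlinarith
  have hq2 : (r2 - δ / 2) ^ 2 < (r2 + δ / 2) ^ 2 := by nlinarith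
  -- the comparison of the cutoffs
  have hcmp : ∀ a : ℂ, p1 (‖a - b1‖ ^ 2) + p2 (‖a - b2‖ ^ 2) ≤ p0 (‖a - 0‖ ^ 2) := by
    intro a
    rw [sub_zero]
    have z1 : r1 + δ / 2 ≤ ‖a - b1‖ → p1 (‖a - b1‖ ^ 2) = 0 := fun h =>
      prof_zero hq1 (pow_le_pow_left₀ (by linarith) h 2)
    have z2 : r2 + δ / 2 ≤ ‖a - b2‖ → p2 (‖a - b2‖ ^ 2) = 0 := fun h =>
      prof_zero hq2 (pow_le_pow_left₀ (by linarith) h 2)
    have o0 : ‖a‖ ≤ r0 - δ / 2 → p0 (‖a‖ ^ 2) = 1 := fun h =>
      prof_one hq0 (pow_le_pow_left₀ (norm_nonneg _) h 2)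
    rcases le_or_gt (r1 + δ / 2) ‖a - b1‖ with h1 | h1
    · rcases le_or_gt (r2 + δ / 2) ‖a - b2‖ with h2 | h2
      · rw [z1 h1, z2 h2, add_zero]; exact prof_nonneg _ _ _
      · rw [z1 h1, zero_add, o0 (by have := nb a b2; linarith)]; exact prof_le_one _ _ _
    · have h2 : r2 + δ / 2 ≤ ‖a - b2‖ := by
        have h3 : ‖b1 - b2‖ ≤ ‖a - b2‖ + ‖a - b1‖ := by
          have e : b1 - b2 = (a - b2) - (a - b1) := by ring
          rw [e]; exact norm_sub_le _ _
        linarith
      rw [z2 h2, add_zero, o0 (by have := nb a b1; linarith)]; exact prof_le_one _ _ _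
  -- the integral of the difference
  have hsum : ∫ a, (rf p0 0 a - rf p1 b1 a - rf p2 b2 a) * psi s (ε ^ 2) M a =
      Real.pi * cc s (ε ^ 2) * i0 - Real.pi * cc s (ε ^ 2) * i1 - Real.pi * cc s (ε ^ 2) * i2 := by
    have j01 : Integrable (fun a => rf p0 0 a * psi s (ε ^ 2) M a - rf p1 b1 a * psi s (ε ^ 2) M a) :=
      j0.sub j1
    rw [← s0, ← s1, ← s2, ← integral_sub j0 j1, ← integral_sub j01 j2]
    congr 1
    funext a
    ring
  have hsi : Integrable (fun a => (rf p0 0 a - rf p1 b1 a - rf p2 b2 a) * psi s (ε ^ 2) M a) := by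
    have := (j0.sub j1).sub j2
    refine this.congr (Eventually.of_forall fun a => ?_)
    simp only [Pi.sub_apply]
    ring
  have hre := congrArg Complex.re hsum
  have hre2 : (∫ a, (rf p0 0 a - rf p1 b1 a - rf p2 b2 a) * psi s (ε ^ 2) M a).re =
      ∫ a, ((rf p0 0 a - rf p1 b1 a - rf p2 b2 a) * psi s (ε ^ 2) M a).re :=
    (integral_re hsi).symm
  rw [hre2] at hre
  have hnn : 0 ≤ ∫ a, ((rf p0 0 a - rf p1 b1 a - rf p2 b2 a) * psi s (ε ^ 2) M a).re := by
    apply integral_nonneg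
    intro a
    have e : (rf p0 0 a - rf p1 b1 a - rf p2 b2 a) =
        ((p0 (‖a - 0‖ ^ 2) - p1 (‖a - b1‖ ^ 2) - p2 (‖a - b2‖ ^ 2) : ℝ) : ℂ) := by
      simp only [rf]; push_cast; ring
    simp only [Pi.zero_apply]
    rw [e, Complex.re_ofReal_mul]
    rcases le_or_gt (r0 + δ / 2) ‖a‖ with h | h
    · have e0 : p0 (‖a - 0‖ ^ 2) = 0 := by
        rw [sub_zero]; exact prof_zero hq0 (pow_le_pow_left₀ (by linarith) h 2)
      have n1 := prof_nonneg ((r1 - δ / 2) ^ 2) ((r1 + δ / 2) ^ 2) (‖a - b1‖ ^ 2)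
      have n2 := prof_nonneg ((r2 - δ / 2) ^ 2) ((r2 + δ / 2) ^ 2) (‖a - b2‖ ^ 2)
      have := hcmp a
      rw [← hp1] at n1
      rw [← hp2] at n2
      have e1 : p0 (‖a - 0‖ ^ 2) - p1 (‖a - b1‖ ^ 2) - p2 (‖a - b2‖ ^ 2) = 0 := by linarith
      rw [e1, zero_mul]
    · refine mul_nonneg (by have := hcmp a; linarith) ?_
      exact psi_nonneg (R := R) hε hst hM (by linarith) (by linarith) hMN
        ((hi a (by linarith)).mono fun r hr h1 h2 => (hr h1 h2).2)
  rw [hre] at hnn
  have hcc := cc_pos hs hst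
  have hfin : 0 ≤ Real.pi * cc s (ε ^ 2) * (i0 - i1 - i2) := by
    refine hnn.trans (le_of_eq ?_)
    simp only [sub_re, mul_re, ofReal_re, ofReal_im, mul_zero, sub_zero, mul_im, zero_mul, add_zero]
    ring
  have hpos : 0 < Real.pi * cc s (ε ^ 2) := mul_pos Real.pi_pos hcc
  have := nonneg_of_mul_nonneg_right hfin hpos
  linarith

end Pool.Agent.J4H79.AS
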