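import Pool.Agent.J4H16.AS.Defs2
import Pool.Agent.J4H73.AS.Rot

/-!
# Project AS (helper16), job ROT2 (helper79): degree two
-/

set_option autoImplicit false
set_option linter.all false
open Set Filter Topology Metric Complex MeasureTheory
open scoped ComplexConjugate

namespace Pool.Agent.J4H79.AS

open Pool.Agent.J4H16 Pool.Agent.W746.LD Pool.Agent.J4H16.AS
open Pool.Agent.J4H73.AS (factor_zero exists_log_convex orb_c_eq t_UNIQ)

/-- the integral of the logarithmic derivative along the imaginary axis -/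
lemma int_log {V : Set ℂ} (hV : IsOpen V) (hI : ∀ θ : ℝ, I * (θ : ℂ) ∈ V) {H L : ℂ → ℂ}
    (hL : DifferentiableOn ℂ L V) (he : ∀ w ∈ V, deriv H w = Complex.exp (L w)) (T : ℝ) :
    ∫ θ in (0 : ℝ)..T, deriv (deriv H) (I * (θ : ℝ)) / deriv H (I * (θ : ℝ)) = (L (I * T) - L 0) / I := by
  have h1 : ∀ w ∈ V, deriv (deriv H) w / deriv H w = deriv L w := by
    intro w hw
    have e1 : deriv H =ᶠ[𝓝 w] fun u => Complex.exp (L u) := by
      filter_upwards [hV.mem_nhds hw] with u hu using he u hu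
    have e2 : HasDerivAt (fun u => Complex.exp (L u)) (Complex.exp (L w) * deriv L w) w :=
      (hL.differentiableAt (hV.mem_nhds hw)).hasDerivAt.cexp
    rw [e1.deriv_eq, e2.deriv, he w hw, mul_div_cancel_left₀ _ (Complex.exp_ne_zero _)]
  have h2 : ∀ θ : ℝ, HasDerivAt (fun θ : ℝ => L (I * θ) / I) (deriv L (I * θ)) θ := by
    intro θ
    have e1 : HasDerivAt (fun θ : ℝ => I * (θ : ℂ)) I θ := by
      simpa using (Complex.ofRealCLM.hasDerivAt (x := θ)).const_mul I
    have e2 := ((hL.differentiableAt (hV.mem_nhds (hI θ))).hasDerivAt.comp θ e1).div_const I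
    refine e2.congr_deriv ?_
    rw [mul_div_assoc, div_self I_ne_zero, mul_one]
  have hcont : Continuous fun θ : ℝ => deriv L (I * θ) :=
    (hL.deriv hV).continuousOn.comp_continuous (by fun_prop) hI
  rw [intervalIntegral.integral_congr (g := fun θ : ℝ => deriv L (I * θ)) (fun θ _ => h1 _ (hI θ)),
    intervalIntegral.integral_eq_sub_of_hasDerivAt (fun θ _ => h2 θ) (hcont.intervalIntegrable _ _)]
  rw [← sub_div]
  simp

/-- a logarithm of `e^w / (1 + δ) - v` -/
noncomputable def lA (δ : ℝ) (v w : ℂ) : ℂ :=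
  w + Complex.log (1 - v * (1 + δ) * Complex.exp (-w)) - Complex.log (1 + δ)

/-- a logarithm of `1 - conj v * e^w / (1 + δ)` -/
noncomputable def lB (δ : ℝ) (v w : ℂ) : ℂ := Complex.log (1 - conj v * (Complex.exp w / (1 + δ)))

lemma one_sub_slit {z : ℂ} (hz : ‖z‖ < 1) : 1 - z ∈ Complex.slitPlane := by
  left
  simp only [sub_re, one_re]
  have := Complex.re_le_norm z
  linarith

section strip

variable {δ : ℝ} (hδ : 0 < δ) (hδ1 : δ < 1)

include hδ

lemma d_ne : (1 + (δ : ℂ)) ≠ 0 := by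
  have h : ((1 + δ : ℝ) : ℂ) ≠ 0 := by exact_mod_cast (by linarith : (1 + δ : ℝ) ≠ 0)
  push_cast at h
  exact h

lemma d_norm : ‖(1 + (δ : ℂ))‖ = 1 + δ := by
  have h : ‖((1 + δ : ℝ) : ℂ)‖ = 1 + δ := by
    rw [Complex.norm_real, Real.norm_of_nonneg (by linarith)]
  push_cast at h
  exact h

lemma ex_bd {w : ℂ} (hw : w ∈ strip (Real.log (1 + δ))) :
    ‖Complex.exp w‖ < 1 + δ ∧ ‖Complex.exp (-w)‖ < 1 + δ := by
  have h1 : (0 : ℝ) < 1 + δ := by linarith
  simp only [strip, mem_ofPred_eq, abs_lt] at hw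
  constructor
  · rw [Complex.norm_exp, ← Real.exp_log h1]
    exact Real.exp_lt_exp.mpr hw.2
  · rw [Complex.norm_exp, ← Real.exp_log h1, neg_re]
    exact Real.exp_lt_exp.mpr (by linarith)

lemma e_ball {w : ℂ} (hw : w ∈ strip (Real.log (1 + δ))) : ‖Complex.exp w / (1 + δ)‖ < 1 := by
  rw [norm_div, d_norm hδ, div_lt_one (by linarith)]
  exact (ex_bd hδ hw).1

lemma lA_slit {v w : ℂ} (hv : ‖v‖ * (1 + δ) ≤ 1 - δ) (hw : w ∈ strip (Real.log (1 + δ))) :
    1 - v * (1 + δ) * Complex.exp (-w) ∈ Complex.slitPlane := by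
  apply one_sub_slit
  rw [norm_mul, norm_mul, d_norm hδ]
  have h0 : 0 ≤ ‖v‖ * (1 + δ) := by positivity
  calc ‖v‖ * (1 + δ) * ‖Complex.exp (-w)‖ ≤ (1 - δ) * (1 + δ) := by
        apply mul_le_mul hv (ex_bd hδ hw).2.le (norm_nonneg _) (by linarith)
    _ < 1 := by nlinarith

lemma lB_slit {v w : ℂ} (hv : ‖v‖ < 1) (hw : w ∈ strip (Real.log (1 + δ))) :
    1 - conj v * (Complex.exp w / (1 + δ)) ∈ Complex.slitPlane := by
  apply one_sub_slit
  rw [norm_mul, RCLike.norm_conj]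
  have := e_ball hδ hw
  have := norm_nonneg v
  have := norm_nonneg (Complex.exp w / (1 + δ))
  nlinarith

lemma lA_diff {v : ℂ} (hv : ‖v‖ * (1 + δ) ≤ 1 - δ) :
    DifferentiableOn ℂ (lA δ v) (strip (Real.log (1 + δ))) := by
  unfold lA
  apply DifferentiableOn.sub_const
  apply differentiableOn_id.add
  apply DifferentiableOn.clog
  · have : Differentiable ℂ (fun w : ℂ => 1 - v * (1 + δ) * Complex.exp (-w)) := by fun_prop
    exact this.differentiableOn
  · intro w hw
    exact lA_slit hδ hv hw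

lemma lB_diff {v : ℂ} (hv : ‖v‖ < 1) : DifferentiableOn ℂ (lB δ v) (strip (Real.log (1 + δ))) := by
  unfold lB
  apply DifferentiableOn.clog
  · have : Differentiable ℂ (fun w : ℂ => 1 - conj v * (Complex.exp w / (1 + δ))) := by fun_prop
    exact this.differentiableOn
  · intro w hw
    exact lB_slit hδ hv hw

lemma exp_lA {v w : ℂ} (hv : ‖v‖ * (1 + δ) ≤ 1 - δ) (hw : w ∈ strip (Real.log (1 + δ))) :
    Complex.exp (lA δ v w) = Complex.exp w / (1 + δ) - v := by
  unfold lA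
  rw [Complex.exp_sub, Complex.exp_add, Complex.exp_log (Complex.slitPlane_ne_zero (lA_slit hδ hv hw)),
    Complex.exp_log (d_ne hδ), Complex.exp_neg]
  have h4 := Complex.exp_ne_zero w
  have h5 := d_ne hδ
  field_simp

lemma exp_lB {v w : ℂ} (hv : ‖v‖ < 1) (hw : w ∈ strip (Real.log (1 + δ))) :
    Complex.exp (lB δ v w) = 1 - conj v * (Complex.exp w / (1 + δ)) := by
  unfold lB
  rw [Complex.exp_log (Complex.slitPlane_ne_zero (lB_slit hδ hv hw))]

omit hδ in
lemma lA_shift (v w : ℂ) : lA δ v (w + 2 * Real.pi * I) = lA δ v w + 2 * Real.pi * I := by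
  unfold lA
  have h : Complex.exp (-(w + 2 * Real.pi * I)) = Complex.exp (-w) := by
    rw [neg_add, Complex.exp_add, Complex.exp_neg (2 * Real.pi * I), Complex.exp_two_pi_mul_I]
    simp
  rw [h]
  ring

omit hδ in
lemma lB_shift (v w : ℂ) : lB δ v (w + 2 * Real.pi * I) = lB δ v w := by
  unfold lB
  rw [Complex.exp_add, Complex.exp_two_pi_mul_I, mul_one]

lemma lA_deriv {v w : ℂ} (hv : ‖v‖ * (1 + δ) ≤ 1 - δ) (hw : w ∈ strip (Real.log (1 + δ))) :
    HasDerivAt (lA δ v) (Complex.exp w / (1 + δ) / (Complex.exp w / (1 + δ) - v)) w := by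
  have hV := isOpen_strip (Real.log (1 + δ))
  have h1 := ((lA_diff hδ hv).differentiableAt (hV.mem_nhds hw)).hasDerivAt
  have h2 := h1.cexp
  have h3 : HasDerivAt (fun u => Complex.exp (lA δ v u)) (Complex.exp w / (1 + δ)) w := by
    have h4 : HasDerivAt (fun u : ℂ => Complex.exp u / (1 + δ) - v) (Complex.exp w / (1 + δ)) w :=
      ((Complex.hasDerivAt_exp w).div_const _).sub_const v
    apply h4.congr_of_eventuallyEq
    filter_upwards [hV.mem_nhds hw] with u hu using exp_lA hδ hv hu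
  have h5 := h2.unique h3
  rw [exp_lA hδ hv hw] at h5
  have hne : Complex.exp w / (1 + δ) - v ≠ 0 := by
    rw [← exp_lA hδ hv hw]; exact Complex.exp_ne_zero _
  have h6 : deriv (lA δ v) w = Complex.exp w / (1 + δ) / (Complex.exp w / (1 + δ) - v) := by
    rw [eq_div_iff hne, mul_comm]; exact h5
  rw [← h6]
  exact h1

lemma lB_deriv {v w : ℂ} (hv : ‖v‖ < 1) (hw : w ∈ strip (Real.log (1 + δ))) :
    HasDerivAt (lB δ v) (-(conj v * (Complex.exp w / (1 + δ))) / (1 - conj v * (Complex.exp w / (1 + δ)))) w := by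
  have hV := isOpen_strip (Real.log (1 + δ))
  have h1 := ((lB_diff hδ hv).differentiableAt (hV.mem_nhds hw)).hasDerivAt
  have h2 := h1.cexp
  have h3 : HasDerivAt (fun u => Complex.exp (lB δ v u)) (-(conj v * (Complex.exp w / (1 + δ)))) w := by
    have h4 : HasDerivAt (fun u : ℂ => 1 - conj v * (Complex.exp u / (1 + δ)))
        (-(conj v * (Complex.exp w / (1 + δ)))) w :=
      (((Complex.hasDerivAt_exp w).div_const _).const_mul _).const_sub 1
    apply h4.congr_of_eventuallyEq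
    filter_upwards [hV.mem_nhds hw] with u hu using exp_lB hδ hv hu
  have h5 := h2.unique h3
  rw [exp_lB hδ hv hw] at h5
  have hne : 1 - conj v * (Complex.exp w / (1 + δ)) ≠ 0 := by
    rw [← exp_lB hδ hv hw]; exact Complex.exp_ne_zero _
  have h6 : deriv (lB δ v) w =
      -(conj v * (Complex.exp w / (1 + δ))) / (1 - conj v * (Complex.exp w / (1 + δ))) := by
    rw [eq_div_iff hne, mul_comm]; exact h5
  rw [← h6]
  exact h1

end strip

/-- a holomorphic function with exponential one is constant -/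
lemma const_of_exp {V : Set ℂ} (hV : IsOpen V) (hc : IsPreconnected V) {g : ℂ → ℂ} (hg : DifferentiableOn ℂ g V)
    (h : ∀ w ∈ V, Complex.exp (g w) = 1) {x y : ℂ} (hx : x ∈ V) (hy : y ∈ V) : g x = g y := by
  have hz : V.EqOn (deriv g) 0 := by
    intro w hw
    have h1 := ((hg.differentiableAt (hV.mem_nhds hw)).hasDerivAt).cexp
    have h2 : HasDerivAt (fun u => Complex.exp (g u)) 0 w := by
      apply (hasDerivAt_const w (1 : ℂ)).congr_of_eventuallyEq
      filter_upwards [hV.mem_nhds hw] with u hu using h u hu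
    have h3 := h1.unique h2
    exact (mul_eq_zero.mp h3).resolve_left (Complex.exp_ne_zero _)
  exact hV.is_const_of_deriv_eq_zero hc hg hz hx hy

lemma alg1 (D κ E ζ v vb : ℂ) (d1 : 1 - vb * ζ ≠ 0) (d2 : ζ - v ≠ 0) :
    D * (κ * (E * ((ζ / (ζ - v) - -(vb * ζ) / (1 - vb * ζ)) / 2))) =
      D * (κ * (1 - vb * v) / 2) * E * ζ / (ζ - v) / (1 - vb * ζ) := by
  obtain ⟨u, hu⟩ : ∃ u, u = 1 - vb * ζ := ⟨_, rfl⟩
  obtain ⟨t, ht⟩ : ∃ t, t = ζ - v := ⟨_, rfl⟩
  rw [← hu] at d1 ⊢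
  rw [← ht] at d2 ⊢
  have e : κ * (E * ((ζ / t - -(vb * ζ) / u) / 2)) = κ * E * ζ * (u + vb * t) / 2 / t / u := by
    field_simp
    ring
  rw [e]
  have e2 : u + vb * t = 1 - vb * v := by rw [hu, ht]; ring
  rw [e2]
  ring

lemma alg2 (ζ ζ' v vb : ℂ) (d1 : 1 - vb * ζ ≠ 0) (d' : 1 - vb * ζ' ≠ 0) :
    (ζ - ζ') / (1 - vb * ζ) * -((1 - vb * v) / (1 - vb * ζ')) =
      -((ζ - v) / (1 - vb * ζ) - (ζ' - v) / (1 - vb * ζ')) := by
  obtain ⟨u, hu⟩ : ∃ u, u = 1 - vb * ζ := ⟨_, rfl⟩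
  obtain ⟨u', hu'⟩ : ∃ u', u' = 1 - vb * ζ' := ⟨_, rfl⟩
  rw [← hu] at d1 ⊢
  rw [← hu'] at d' ⊢
  have e : -((ζ - v) / u - (ζ' - v) / u') = -((ζ - v) * u' - (ζ' - v) * u) / (u * u') := by
    field_simp
  rw [e]
  have e2 : (ζ - v) * u' - (ζ' - v) * u = (ζ - ζ') * (1 - vb * v) := by rw [hu, hu']; ring
  rw [e2]
  field_simp

theorem t_ROT2 : Pool.Agent.J4H16.AS.S_ROT2 := by
  classical
  intro c a ρ δ m H hρ hδ hδ1 hfree hH hHe
  have hn : 2 ≤ 2 := le_rfl
  have h1δ : (0 : ℝ) < 1 + δ := by linarith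
  obtain ⟨V, hVdef⟩ : ∃ V : Set ℂ, V = strip (Real.log (1 + δ)) := ⟨_, rfl⟩
  rw [← hVdef] at hH
  have hVo : IsOpen V := by rw [hVdef]; exact isOpen_strip _
  have hVc : Convex ℝ V := by rw [hVdef]; exact convex_strip _
  have hlogpos : 0 < Real.log (1 + δ) := Real.log_pos (by linarith)
  have h0V : (0 : ℂ) ∈ V := by
    rw [hVdef]
    simp only [strip, mem_ofPred_eq, zero_re, abs_zero]
    exact hlogpos
  have hIV : ∀ θ : ℝ, I * (θ : ℂ) ∈ V := by
    intro θ
    rw [hVdef]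
    simp only [strip, mem_ofPred_eq]
    simpa using hlogpos
  have h2V : ∀ w ∈ V, w + 2 * Real.pi * I ∈ V := by
    intro w hw
    rw [hVdef] at hw ⊢
    simpa [strip] using hw
  have hρc : (ρ : ℂ) ≠ 0 := by exact_mod_cast hρ.ne'
  have hδc' := d_ne hδ
  have hnorm1' := d_norm hδ
  -- the map to the disc
  set e : ℂ → ℂ := fun w => Complex.exp w / (1 + δ) with he
  have heb : ∀ w ∈ V, e w ∈ ball (0 : ℂ) 1 := by
    intro w hw
    rw [mem_ball_zero_iff]
    rw [hVdef] at hw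
    exact e_ball hδ hw
  have hed : DifferentiableOn ℂ e V := by
    intro w hw
    exact ((Complex.differentiable_exp w).div_const _).differentiableWithinAt
  have heper : ∀ w, e (w + 2 * Real.pi * I) = e w := by
    intro w
    simp only [he]
    rw [Complex.exp_add, Complex.exp_two_pi_mul_I, mul_one]
  set φ : ℂ → ℂ := fun ζ => a + ρ * (1 + δ) * ζ with hφ
  have hφe : ∀ w, φ (e w) = a + ρ * Complex.exp w := by
    intro w
    simp only [hφ, he]
    field_simp
  have hφu : Univ φ 0 1 := by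
    constructor
    · intro z _
      simp only [hφ]
      fun_prop
    · intro x _ y _ hxy
      simp only [hφ] at hxy
      have h3 := add_left_cancel hxy
      exact mul_left_cancel₀ (mul_ne_zero hρc hδc') h3
  -- the values of E avoid PC
  have hEPC : ∀ w ∈ V, a + ρ * Complex.exp w ∉ PC 2 c := by
    intro w hw hmem
    rw [hVdef] at hw
    apply hfree _ hmem
    rw [add_sub_cancel_left, norm_mul, Complex.norm_real, Real.norm_of_nonneg hρ.le]
    obtain ⟨b1, b2⟩ := ex_bd hδ hw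
    constructor
    · have h3 : 1 ≤ (1 + δ) * ‖Complex.exp w‖ := by
        have h4 : ‖Complex.exp w‖ * ‖Complex.exp (-w)‖ = 1 := by
          rw [← norm_mul, ← Complex.exp_add, add_neg_cancel, Complex.exp_zero, norm_one]
        calc (1 : ℝ) = ‖Complex.exp (-w)‖ * ‖Complex.exp w‖ := by rw [mul_comm, h4]
          _ ≤ (1 + δ) * ‖Complex.exp w‖ := by gcongr
      have h5 : (1 - δ) < ‖Complex.exp w‖ := by
        by_contra hcon
        push Not at hcon
        have : (1 + δ) * ‖Complex.exp w‖ ≤ (1 + δ) * (1 - δ) := by gcongr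
        nlinarith
      gcongr
    · gcongr
  -- points of the disc over PC
  have hPCv : ∀ v : ℂ, v ∈ ball (0 : ℂ) 1 → φ v ∈ PC 2 c → ‖v‖ * (1 + δ) ≤ 1 - δ := by
    intro v hv h3
    have hv1 : ‖v‖ < 1 := by simpa using hv
    by_contra hcon
    push Not at hcon
    apply hfree _ h3
    have h4 : ‖φ v - a‖ = ρ * (‖v‖ * (1 + δ)) := by
      simp only [hφ]
      rw [add_sub_cancel_left, norm_mul, norm_mul, hnorm1', Complex.norm_real,
        Real.norm_of_nonneg hρ.le]
      ring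
    rw [h4]
    constructor
    · gcongr
    · gcongr
      nlinarith
  -- uniqueness of the lifts along the annulus
  have huniq0 : ∀ (j : ℕ) (G : ℂ → ℂ), j ≤ m → DifferentiableOn ℂ G V →
      (∀ w ∈ V, orb 2 c (G w) j = a + ρ * Complex.exp w) →
      G 0 = orb 2 c (H 0) (m - j) → ∀ w ∈ V, orb 2 c (H w) (m - j) = G w := by
    intro j G hj hG hGe h0
    apply t_UNIQ 2 c j V (fun w => a + ρ * Complex.exp w) _ G 0 hn hVo
      hVc.isPreconnected h0V hEPC ((differentiable_orb _).comp_differentiableOn hH) hG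
    · intro w hw
      show orb 2 c (orb 2 c (H w) (m - j)) j = _
      rw [← orb_add, Nat.sub_add_cancel hj, hHe w (by rw [← hVdef]; exact hw)]
    · exact hGe
    · exact h0.symm
  have hE0 : orb 2 c (H 0) m = a + ρ * Complex.exp 0 := hHe 0 (by rw [← hVdef]; exact h0V)
  by_cases hall : ∀ j < m, ∀ h, Lf 2 c j φ h → h (e 0) = orb 2 c (H 0) (m - j) →
      ∀ w ∈ ball (0 : ℂ) 1, h w ≠ c
  · left
    obtain ⟨h, hh, h0⟩ := exists_lf hn hφu (heb 0 h0V) (x := H 0) (k := m) (by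
      rw [hφe, hE0]) hall
    refine ⟨h, hh, ?_⟩
    intro w hw
    rw [← hVdef] at hw
    have := huniq0 m (fun w => h (e w)) le_rfl (hh.diff.comp hed heb)
      (fun w hw => by rw [hh.eq _ (heb w hw), hφe]) (by rw [h0, Nat.sub_self, orb_zero]) w hw
    rw [Nat.sub_self, orb_zero] at this
    exact this
  right
  push Not at hall
  obtain ⟨i, hi, h, hh, h0, v, hv, hvc⟩ := hall
  have hkey := huniq0 i (fun w => h (e w)) hi.le (hh.diff.comp hed heb)
      (fun w hw => by rw [hh.eq _ (heb w hw), hφe]) h0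
  have hv1 : ‖v‖ < 1 := by simpa using hv
  have hv2 : ‖v‖ * (1 + δ) ≤ 1 - δ := by
    apply hPCv v hv
    rw [← hh.eq v hv, hvc, orb_c_eq hn]
    exact orb_mem_PC (by omega)
  have hv1' : ‖-v‖ < 1 := by rwa [norm_neg]
  have hin := hh.injOn hφu
  obtain ⟨q, hq1, hq0, hq2, -, hq3⟩ := exists_pull hn hφu hh hv1 hvc
  obtain ⟨k1, hk1⟩ : ∃ k1 : ℕ, k1 = m - i - 1 := ⟨_, rfl⟩
  have hk1m : k1 + 1 + i = m := by omega
  -- the point `ξ0`
  obtain ⟨ξ0, hξ0, hξ0a, hξ0b⟩ := hq3 (orb 2 c (H 0) k1) (e 0) (heb 0 h0V) (by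
    rw [← orb_succ, ← hkey 0 h0V]
    congr 1
    omega)
  have hξ0n : ‖ξ0 ^ 2‖ < 1 := by
    rw [mem_ball, dist_zero_right] at hξ0
    rw [norm_pow]
    exact pow_lt_one₀ (norm_nonneg _) hξ0 (by norm_num)
  -- the logarithm of `M (e w)`
  set L : ℂ → ℂ := fun w => lA δ v w - lB δ v w with hL
  have hLd : DifferentiableOn ℂ L V := by
    rw [hVdef]; exact (lA_diff hδ hv2).sub (lB_diff hδ hv1)
  have hmob : ∀ ζ : ℂ, mob (-v) ζ = (ζ - v) / (1 - conj v * ζ) := by
    intro ζ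
    unfold mob
    rw [map_neg]
    ring_nf
  have hLe : ∀ w ∈ V, Complex.exp (L w) = mob (-v) (e w) := by
    intro w hw
    rw [hVdef] at hw
    simp only [hL]
    rw [Complex.exp_sub, exp_lA hδ hv2 hw, exp_lB hδ hv1 hw, hmob]
  have hLs : ∀ w, L (w + 2 * Real.pi * I) = L w + 2 * Real.pi * I := by
    intro w
    simp only [hL]
    rw [lA_shift, lB_shift]
    ring
  obtain ⟨κ, hκ⟩ : ∃ κ : ℂ, κ = ξ0 / Complex.exp (L 0 / 2) := ⟨_, rfl⟩
  have hsq : ∀ z : ℂ, Complex.exp (z / 2) ^ 2 = Complex.exp z := by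
    intro z
    rw [← Complex.exp_nat_mul]
    congr 1
    push_cast
    ring
  have hξ0sq : ξ0 ^ 2 = Complex.exp (L 0) := by
    rw [hLe 0 h0V, ← hξ0a, mob_inv hv1 hξ0n]
  have hκ2 : κ ^ 2 = 1 := by
    rw [hκ, div_pow, hsq, hξ0sq, div_self (Complex.exp_ne_zero _)]
  have hκ0 : κ ≠ 0 := by
    rintro rfl
    norm_num at hκ2
  set ξ : ℂ → ℂ := fun w => κ * Complex.exp (L w / 2) with hξ
  have hξz : ξ 0 = ξ0 := by
    simp only [hξ]
    rw [hκ, div_mul_cancel₀ _ (Complex.exp_ne_zero _)]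
  have hξne : ∀ w, ξ w ≠ 0 := fun w => mul_ne_zero hκ0 (Complex.exp_ne_zero _)
  have hξsq : ∀ w ∈ V, ξ w ^ 2 = mob (-v) (e w) := by
    intro w hw
    simp only [hξ]
    rw [mul_pow, hκ2, one_mul, hsq, hLe w hw]
  have hξb : ∀ w ∈ V, ξ w ∈ ball (0 : ℂ) 1 := by
    intro w hw
    have h3 := heb w hw
    rw [mem_ball, dist_zero_right] at h3 ⊢
    have h4 := mob_lt hv1' h3
    rw [← hξsq w hw, norm_pow] at h4
    by_contra hcon
    push Not at hcon
    have := one_le_pow₀ (n := 2) hcon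
    linarith
  have hξd : DifferentiableOn ℂ ξ V := (hLd.div_const _).cexp.const_mul κ
  have hξs : ∀ w, ξ (w + 2 * Real.pi * I) = -ξ w := by
    intro w
    simp only [hξ]
    rw [hLs, add_div, Complex.exp_add, show 2 * (Real.pi : ℂ) * I / 2 = Real.pi * I by ring,
      Complex.exp_pi_mul_I]
    ring
  have hmobe : ∀ w ∈ V, mob v (ξ w ^ 2) = e w := by
    intro w hw
    have h3 := heb w hw
    rw [mem_ball, dist_zero_right] at h3
    rw [hξsq w hw]
    have := mob_inv hv1' h3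
    rwa [neg_neg] at this
  -- the values over the lifts of `q`
  have horbq : ∀ ζ ∈ ball (0 : ℂ) 1, ∀ w : ℂ, mob v (ζ ^ 2) = w → w ∈ ball (0 : ℂ) 1 →
      orb 2 c (q ζ) (1 + i) = φ w := by
    intro ζ hζ w hw hwb
    rw [orb_add, orb_one, hq2 ζ hζ, hw, hh.eq w hwb]
  -- uniqueness for the lifts of `q`
  have huniq : ∀ (j : ℕ) (p : ℂ → ℂ), j ≤ k1 → Lf 2 c j q p → p ξ0 = orb 2 c (H 0) (k1 - j) →
      ∀ w ∈ V, orb 2 c (H w) (k1 - j) = p (ξ w) := by
    intro j p hj hp hp0 w hw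
    have h3 := huniq0 (j + (1 + i)) (fun w => p (ξ w)) (by omega) (hp.diff.comp hξd hξb)
      (fun w hw => by
        rw [orb_add, hp.eq _ (hξb w hw), horbq _ (hξb w hw) _ (hmobe w hw) (heb w hw), hφe])
      (by
        simp only [hξz]
        rw [hp0]
        congr 1
        omega) w hw
    rw [← h3]
    congr 1
    omega
  have e4 : ∀ w : ℂ, w + 4 * Real.pi * I = (w + 2 * Real.pi * I) + 2 * Real.pi * I := fun w => by ring
  have h4V : ∀ w ∈ V, w + 4 * Real.pi * I ∈ V := by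
    intro w hw
    rw [e4]
    exact h2V _ (h2V w hw)
  have hξs4 : ∀ w, ξ (w + 4 * Real.pi * I) = ξ w := by
    intro w
    rw [e4, hξs, hξs, neg_neg]
  have hvv : (1 : ℂ) - conj v * v ≠ 0 := by
    have h3 := mob_den (a := -v) (ζ := v) hv1' hv1
    rw [map_neg] at h3
    intro h4
    apply h3
    linear_combination h4
  have hdenw : ∀ w ∈ V, 1 - conj v * e w ≠ 0 ∧ e w - v ≠ 0 := by
    intro w hw
    rw [hVdef] at hw
    refine ⟨?_, ?_⟩
    · have := exp_lB hδ hv1 hw
      simp only [he]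
      rw [← this]; exact Complex.exp_ne_zero _
    · have := exp_lA hδ hv2 hw
      simp only [he]
      rw [← this]; exact Complex.exp_ne_zero _
  by_cases hall2 : ∀ j < k1, ∀ p, Lf 2 c j q p → p ξ0 = orb 2 c (H 0) (k1 - j) →
      ∀ w ∈ ball (0 : ℂ) 1, p w ≠ c
  · left
    obtain ⟨p, hp, hp0⟩ := exists_lf hn hq1 hξ0 (x := H 0) (k := k1) hξ0b hall2
    have hHp : ∀ w ∈ V, H w = p (ξ w) := by
      intro w hw
      have := huniq k1 p le_rfl hp (by rw [hp0, Nat.sub_self, orb_zero]) w hw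
      rwa [Nat.sub_self, orb_zero] at this
    have hpin := hp.injOn hq1
    refine ⟨fun w hw => ?_, ?_⟩
    · rw [← hVdef] at hw
      constructor
      · rw [hHp _ (h4V w hw), hHp w hw, hξs4]
      · rw [hHp _ (h2V w hw), hHp w hw]
        intro h3
        have h4 := hpin (hξb _ (h2V w hw)) (hξb w hw) h3
        rw [hξs] at h4
        have h5 : ξ w = 0 := by linear_combination (-1 / 2 : ℂ) * h4
        exact hξne w h5
    · -- the logarithm of the derivative
      have hpd : DifferentiableOn ℂ (deriv p) (ball 0 1) := hp.diff.deriv isOpen_ball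
      have hpne : ∀ ζ ∈ ball (0 : ℂ) 1, deriv p ζ ≠ 0 := fun ζ hζ =>
        Pool.Agent.Helper202.Univ.deriv_ne_zero isOpen_ball hp.diff hpin hζ
      obtain ⟨P1, hP1, hP1e⟩ := exists_log_convex isOpen_ball (convex_ball (0 : ℂ) 1)
        ⟨0, mem_ball_self one_pos⟩ hpd hpne
      obtain ⟨C0, hC0⟩ : ∃ C0 : ℂ, Complex.exp C0 = κ * (1 - conj v * v) / 2 :=
        ⟨Complex.log (κ * (1 - conj v * v) / 2),
          Complex.exp_log (div_ne_zero (mul_ne_zero hκ0 hvv) two_ne_zero)⟩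
      set Λ : ℂ → ℂ := fun w => P1 (ξ w) + C0 + L w / 2 + (w - Complex.log (1 + δ)) - lA δ v w -
        lB δ v w with hΛ
      have hΛd : DifferentiableOn ℂ Λ V := by
        have hA : DifferentiableOn ℂ (lA δ v) V := by rw [hVdef]; exact lA_diff hδ hv2
        have hB : DifferentiableOn ℂ (lB δ v) V := by rw [hVdef]; exact lB_diff hδ hv1
        exact (((((hP1.comp hξd hξb).add_const C0).add (hLd.div_const 2)).add
          (differentiableOn_id.sub_const _)).sub hA).sub hB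
      have hΛe : ∀ w ∈ V, deriv H w = Complex.exp (Λ w) := by
        intro w hw
        have hw' := hw
        rw [hVdef] at hw'
        obtain ⟨d1, d2⟩ := hdenw w hw
        have hLder : HasDerivAt L (e w / (e w - v) - -(conj v * e w) / (1 - conj v * e w)) w :=
          (lA_deriv hδ hv2 hw').sub (lB_deriv hδ hv1 hw')
        have hξder : HasDerivAt ξ (κ * (Complex.exp (L w / 2) *
            ((e w / (e w - v) - -(conj v * e w) / (1 - conj v * e w)) / 2))) w :=
          ((hLder.div_const 2).cexp).const_mul κ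
        have hpder : HasDerivAt p (deriv p (ξ w)) (ξ w) :=
          (hp.diff.differentiableAt (isOpen_ball.mem_nhds (hξb w hw))).hasDerivAt
        have hHev : H =ᶠ[𝓝 w] fun u => p (ξ u) := by
          filter_upwards [hVo.mem_nhds hw] with u hu using hHp u hu
        have hcomp : HasDerivAt (fun u => p (ξ u)) (deriv p (ξ w) * (κ * (Complex.exp (L w / 2) *
            ((e w / (e w - v) - -(conj v * e w) / (1 - conj v * e w)) / 2)))) w :=
          hpder.comp w hξder
        rw [hHev.deriv_eq, hcomp.deriv]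
        simp only [hΛ]
        rw [Complex.exp_sub, Complex.exp_sub, Complex.exp_add, Complex.exp_add, Complex.exp_add,
          Complex.exp_sub, exp_lA hδ hv2 hw', exp_lB hδ hv1 hw', hC0, hP1e _ (hξb w hw),
          Complex.exp_log (d_ne hδ)]
        exact alg1 _ _ _ _ _ _ d1 d2
      rw [int_log hVo hIV hΛd hΛe (4 * Real.pi)]
      have hAs : ∀ w, lA δ v (w + 4 * Real.pi * I) = lA δ v w + 4 * Real.pi * I := by
        intro w
        rw [e4, lA_shift, lA_shift]
        ring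
      have hBs : ∀ w, lB δ v (w + 4 * Real.pi * I) = lB δ v w := by
        intro w
        rw [e4, lB_shift, lB_shift]
      have hper : Λ (I * ((4 * Real.pi : ℝ) : ℂ)) = Λ 0 + 2 * Real.pi * I := by
        have e5 : I * ((4 * Real.pi : ℝ) : ℂ) = 0 + 4 * Real.pi * I := by push_cast; ring
        rw [e5]
        simp only [hΛ]
        rw [hξs4, hAs, hBs]
        simp only [hL]
        rw [hAs, hBs]
        ring
      rw [hper, add_sub_cancel_left, mul_div_assoc, div_self I_ne_zero, mul_one]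
  · right
    push Not at hall2
    obtain ⟨j, hj, p, hp, hp0, v', hv', hv'c⟩ := hall2
    have hkey2 := huniq j p hj.le hp hp0
    have hpin := hp.injOn hq1
    obtain ⟨k, hk⟩ : ∃ k : ℕ, k = k1 - j - 1 := ⟨_, rfl⟩
    have hv'n : ‖v' ^ 2‖ < 1 := by
      rw [mem_ball, dist_zero_right] at hv'
      rw [norm_pow]
      exact pow_lt_one₀ (norm_nonneg _) hv' (by norm_num)
    obtain ⟨ζ', hζ'⟩ : ∃ ζ' : ℂ, ζ' = mob v (v' ^ 2) := ⟨_, rfl⟩
    have hζ'1 : ‖ζ'‖ < 1 := by rw [hζ']; exact mob_lt hv1 hv'n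
    have hζ'b : ζ' ∈ ball (0 : ℂ) 1 := by rw [mem_ball, dist_zero_right]; exact hζ'1
    have hζ'v : ‖ζ'‖ * (1 + δ) ≤ 1 - δ := by
      apply hPCv ζ' hζ'b
      rw [← horbq v' hv' ζ' hζ'.symm hζ'b, ← hp.eq v' hv', hv'c, ← orb_add, orb_c_eq hn]
      exact orb_mem_PC (by omega)
    have hdv : deriv p v' ≠ 0 := Pool.Agent.Helper202.Univ.deriv_ne_zero isOpen_ball hp.diff hpin hv'
    obtain ⟨l, hl, hle⟩ := factor_zero hp.diff hpin hv' hv'c hdv
    set T : ℂ → ℂ := fun w => orb 2 c (H w) k with hT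
    have hTd : DifferentiableOn ℂ T V := (differentiable_orb _).comp_differentiableOn hH
    have hTn : ∀ w ∈ V, T w ^ 2 = p (ξ w) - c := by
      intro w hw
      rw [← hkey2 w hw, eq_sub_iff_add_eq]
      simp only [hT]
      rw [← orb_succ]
      congr 1
      omega
    have hT0 : ∀ w ∈ V, T w ≠ 0 := by
      intro w hw h3
      apply hEPC w hw
      rw [← hHe w (by rw [← hVdef]; exact hw)]
      obtain ⟨t, ht⟩ : ∃ t : ℕ, m = k + (t + 1) := ⟨m - k - 1, by omega⟩
      rw [ht, orb_add]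
      have h4 : orb 2 c (H w) k = 0 := h3
      rw [h4]
      exact orb_mem_PC (by omega)
    have hξv : ∀ w ∈ V, ξ w - v' ≠ 0 := by
      intro w hw h3
      have h4 := hTn w hw
      rw [sub_eq_zero.mp h3, hv'c, sub_self] at h4
      exact hT0 w hw (pow_eq_zero_iff (by norm_num) |>.mp h4)
    obtain ⟨L2, hL2, hL2e⟩ := exists_log_convex hVo hVc ⟨0, h0V⟩ (hξd.sub_const v') hξv
    have hden' : 1 - conj v * ζ' ≠ 0 := by
      have h3 := mob_den (a := -v) (ζ := ζ') hv1' hζ'1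
      rw [map_neg] at h3
      intro h4
      apply h3
      linear_combination h4
    obtain ⟨C2, hC2⟩ : ∃ C2 : ℂ, Complex.exp C2 = -((1 - conj v * v) / (1 - conj v * ζ')) :=
      ⟨Complex.log (-((1 - conj v * v) / (1 - conj v * ζ'))),
        Complex.exp_log (neg_ne_zero.mpr (div_ne_zero hvv hden'))⟩
    set Λ2 : ℂ → ℂ := fun w => lA δ ζ' w - lB δ v w + C2 with hΛ2
    have hΛ2d : DifferentiableOn ℂ Λ2 V := by
      have hA : DifferentiableOn ℂ (lA δ ζ') V := by rw [hVdef]; exact lA_diff hδ hζ'v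
      have hB : DifferentiableOn ℂ (lB δ v) V := by rw [hVdef]; exact lB_diff hδ hv1
      exact (hA.sub hB).add_const C2
    have hv'sq : v' ^ 2 = (ζ' - v) / (1 - conj v * ζ') := by
      rw [← hmob, hζ', mob_inv hv1 hv'n]
    have hΛ2e : ∀ w ∈ V, Complex.exp (Λ2 w) = -(ξ w ^ 2 - v' ^ 2) := by
      intro w hw
      have hw' := hw
      rw [hVdef] at hw'
      obtain ⟨d1, d2⟩ := hdenw w hw
      simp only [hΛ2]
      rw [Complex.exp_add, Complex.exp_sub, exp_lA hδ hζ'v hw', exp_lB hδ hv1 hw', hC2,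
        hξsq w hw, hmob, hv'sq]
      exact alg2 _ _ _ _ d1 hden'
    have hΛ2s : ∀ w, Λ2 (w + 2 * Real.pi * I) = Λ2 w + 2 * Real.pi * I := by
      intro w
      simp only [hΛ2]
      rw [lA_shift, lB_shift]
      ring
    have hshift : ∀ g : ℂ → ℂ, DifferentiableOn ℂ g V →
        DifferentiableOn ℂ (fun w => g (w + 2 * Real.pi * I)) V := by
      intro g hg
      exact hg.comp (differentiableOn_id.add_const _) h2V
    have hg1 : ∀ w ∈ V, Complex.exp (L2 w + L2 (w + 2 * Real.pi * I) - Λ2 w) = 1 := by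
      intro w hw
      have h3 := hΛ2e w hw
      rw [Complex.exp_sub, Complex.exp_add, hL2e w hw, hL2e _ (h2V w hw), hξs]
      rw [div_eq_one_iff_eq (Complex.exp_ne_zero _), h3]
      ring
    have hL24 : ∀ w ∈ V, L2 (w + 4 * Real.pi * I) = L2 w + 2 * Real.pi * I := by
      intro w hw
      have h3 := const_of_exp hVo hVc.isPreconnected ((hL2.add (hshift L2 hL2)).sub hΛ2d) hg1
        (h2V w hw) hw
      have h4 : L2 (w + 2 * Real.pi * I) + L2 (w + 2 * Real.pi * I + 2 * Real.pi * I) -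
          Λ2 (w + 2 * Real.pi * I) = L2 w + L2 (w + 2 * Real.pi * I) - Λ2 w := h3
      rw [hΛ2s] at h4
      rw [e4]
      linear_combination h4
    set S : ℂ → ℂ := fun w => Complex.exp ((L2 w + l (ξ w)) / 2) with hS
    have hSd : DifferentiableOn ℂ S V := ((hL2.add (hl.comp hξd hξb)).div_const 2).cexp
    have hS2 : ∀ w ∈ V, S w ^ 2 = p (ξ w) - c := by
      intro w hw
      simp only [hS]
      rw [hsq, Complex.exp_add, hL2e w hw, hle _ (hξb w hw)]
    have hS0 : ∀ w, S w ≠ 0 := fun w => Complex.exp_ne_zero _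
    obtain ⟨μ, hμ⟩ : ∃ μ : ℂ, μ = T 0 / S 0 := ⟨_, rfl⟩
    have hμn : μ ^ 2 = 1 := by
      rw [hμ, div_pow, hTn 0 h0V, hS2 0 h0V, div_self]
      rw [← hS2 0 h0V]
      exact pow_ne_zero 2 (hS0 0)
    have hTS : ∀ w ∈ V, T w = μ * S w := by
      apply pow_unique hn hVo hVc.isPreconnected hTd (hSd.const_mul μ) ?_ ?_ h0V ?_
      · intro w hw
        rw [mul_pow, hμn, one_mul, hTn w hw, hS2 w hw]
      · intro w hw
        refine mul_ne_zero ?_ (hS0 w)
        intro h3
        rw [h3, zero_pow (by norm_num)] at hμn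
        exact zero_ne_one hμn
      · rw [hμ, div_mul_cancel₀ _ (hS0 0)]
    refine ⟨k, by omega, ?_⟩
    intro w hw
    rw [← hVdef] at hw
    refine ⟨hT0 w hw, ?_⟩
    have h3 := hTS _ (h4V w hw)
    have h4 := hTS w hw
    simp only [hT] at h3 h4
    rw [h3, h4]
    simp only [hS]
    rw [hL24 w hw, hξs4]
    have h5 : (L2 w + 2 * Real.pi * I + l (ξ w)) / 2 = (L2 w + l (ξ w)) / 2 + Real.pi * I := by ring
    rw [h5, Complex.exp_add, Complex.exp_pi_mul_I]
    ring


end Pool.Agent.J4H79.AS
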