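import Pool.Agent.J4H16.AS.Defs2

/-!
# Project AS (helper16), job SYM (helper79)
-/

set_option autoImplicit false
set_option linter.all false
open Set Filter Topology Metric Complex MeasureTheory
open scoped ComplexConjugate

namespace Pool.Agent.J4H79.AS

open Pool.Agent.J4H16 Pool.Agent.W746.LD Pool.Agent.J4H16.AS

variable {c : ℂ} {r : ℝ} {ν : ℂ → ℂ} {A : ℝ}

/-- The line field of degree two is even. -/
lemma nu_even (hI : Inv 2 c ν A) : ∀ᵐ z : ℂ, ν (-z) = ν z := by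
  have h1 := hI.inv
  have h2 : ∀ᵐ z : ℂ, ν (-z) = ν ((-z) ^ 2 + c) * (conj (((2 : ℕ) : ℂ) * (-z) ^ (2 - 1)) / (((2 : ℕ) : ℂ) * (-z) ^ (2 - 1))) :=
    (Measure.measurePreserving_neg (volume : Measure ℂ)).quasiMeasurePreserving.ae h1
  filter_upwards [h1, h2] with z e1 e2
  rw [e1, e2]
  congr 1
  · congr 1
    ring
  · have e3 : ((2 : ℕ) : ℂ) * (-z) ^ (2 - 1) = -(((2 : ℕ) : ℂ) * z ^ (2 - 1)) := by
      norm_num
    rw [e3, map_neg, neg_div_neg_eq]

lemma int_neg (F : ℂ → ℝ) (a : ℂ) (σ : ℝ) : ∫ w in ball (-a) σ, F w = ∫ w in ball a σ, F (-w) := by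
  rw [← integral_indicator measurableSet_ball, ← integral_indicator measurableSet_ball,
    ← integral_neg_eq_self]
  congr 1
  funext w
  by_cases h : w ∈ ball a σ
  · have h' : -w ∈ ball (-a) σ := by
      rw [mem_ball, dist_eq_norm] at h ⊢
      rw [show -w - -a = -(w - a) by ring, norm_neg]
      exact h
    rw [indicator_of_mem h, indicator_of_mem h']
  · have h' : -w ∉ ball (-a) σ := by
      rw [mem_ball, dist_eq_norm] at h ⊢
      rw [show -w - -a = -(w - a) by ring, norm_neg]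
      exact h
    rw [indicator_of_notMem h, indicator_of_notMem h']

theorem t_SYM (SM : Pool.Agent.J4H16.AS.S_SM) : Pool.Agent.J4H16.AS.S_SYM := by
  intro c r ν A x h hd' hI hx B d M θ hd hM hθ
  obtain ⟨C0, c0, K⟩ := exists_KC
  have hC0 := K.one_le
  have hνx : 0 < ‖ν x‖ := norm_pos_iff.mpr hx.ne
  set κ : ℝ := min (1 / 8) (θ / (64 * (C0 + 2))) with hκd
  have hκ : 0 < κ := by positivity
  have hκ1 : κ ≤ 1 / 8 := min_le_left _ _
  have hκ2 : κ ≤ θ / (64 * (C0 + 2)) := min_le_right _ _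
  obtain ⟨δ0, hδ0, hN⟩ := near_const_ph hI h.hn K hx hθ (M := M / (κ * d)) (by positivity)
  obtain ⟨s0, hs0, hS⟩ := SM 2 c r h hd' x B d M (δ0 / (κ * d)) hd (by positivity)
  refine ⟨s0, hs0, ?_⟩
  intro s Z m1 m2 G1 G2 hs hss0 hZ h1 h2
  have hsC : (s : ℂ) ≠ 0 := by exact_mod_cast hs.ne'
  have key : ∀ (Z : ℂ) (m : ℕ) (G : ℂ → ℂ), ‖Z‖ ≤ B → SB 2 c x s m Z d M G →
      ∫ w in ball ((s : ℂ) * Z) (κ * (s * d)), ‖ν w - ν x * ph (deriv G Z)‖ ≤
        θ * ‖ν x‖ * (κ * (s * d)) ^ 2 := by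
    intro Z m G hZ hG
    have hbr := hG.br hs
    have hZs : (s : ℂ) * Z / s = Z := by field_simp
    have hder : deriv (fun w => G (w / s)) (s * Z) = deriv G Z / s := by
      have h3 : HasDerivAt G (deriv G Z) ((s : ℂ) * Z / s) := by
        rw [hZs]; exact hG.hasDerivAt (mem_ball_self hd)
      have h4 : HasDerivAt (fun w : ℂ => w / s) (1 / s) (s * Z) := (hasDerivAt_id _).div_const _
      have h5 := h3.comp (s * Z) h4
      rw [mul_one_div] at h5
      exact h5.deriv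
    have hn : ‖deriv (fun w => G (w / s)) (s * Z)‖ = ‖deriv G Z‖ / s := by
      rw [hder, norm_div, Complex.norm_real, Real.norm_of_nonneg hs.le]
    have h6 := hN m (s * Z) (s * d) (κ * (s * d)) (fun w => G (w / s)) (by positivity)
      (by nlinarith [mul_pos hs hd]) (by
        calc 64 * (C0 + 2) * (κ * (s * d)) ≤ 64 * (C0 + 2) * (θ / (64 * (C0 + 2)) * (s * d)) := by
              gcongr
          _ = θ * (s * d) := by
              have : C0 + 2 ≠ 0 := by positivity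
              field_simp) hbr (by
        rw [hn, hZs]
        refine hG.cone.trans (le_of_eq ?_)
        field_simp) (by
        rw [hn]
        have h7 := (hS s m Z G hs hss0 hZ hG).le
        rw [le_div_iff₀ (by positivity)] at h7
        calc κ * (s * d) * (‖deriv G Z‖ / s) = ‖deriv G Z‖ * (κ * d) := by field_simp
          _ ≤ δ0 := h7)
    have h8 : ph (deriv (fun w => G (w / s)) (s * Z)) = ph (deriv G Z) := by
      have h9 : ph ((s : ℂ)⁻¹) = 1 := by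
        rw [ph_inv, ph_real hs.ne', inv_one]
      rw [hder, div_eq_mul_inv, ph_mul, h9, mul_one]
    rw [h8] at h6
    exact h6
  have k1 := key Z m1 G1 hZ h1
  have k2 := key (-Z) m2 G2 (by rwa [norm_neg]) h2
  set σ : ℝ := κ * (s * d) with hσ
  have hσ0 : 0 < σ := by positivity
  set l1 := ν x * ph (deriv G1 Z)
  set l2 := ν x * ph (deriv G2 (-Z))
  have hfin := vol_ball_ne ((s : ℂ) * Z) σ
  -- symmetry
  have k2' : ∫ w in ball ((s : ℂ) * Z) σ, ‖ν w - l2‖ ≤ θ * ‖ν x‖ * σ ^ 2 := by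
    refine le_trans (le_of_eq ?_) k2
    rw [mul_neg, int_neg (fun w => ‖ν w - l2‖) ((s : ℂ) * Z) σ]
    apply setIntegral_congr_ae measurableSet_ball
    filter_upwards [nu_even hI] with w hw _
    rw [hw]
  have h3 : ∫ w in ball ((s : ℂ) * Z) σ, ‖l1 - l2‖ ≤
      ∫ w in ball ((s : ℂ) * Z) σ, (‖ν w - l1‖ + ‖ν w - l2‖) := by
    have hc : IntegrableOn (fun _ : ℂ => ‖l1 - l2‖) (ball ((s : ℂ) * Z) σ) :=
      integrableOn_const hfin
    have ha : IntegrableOn (fun w : ℂ => ‖ν w - l1‖ + ‖ν w - l2‖) (ball ((s : ℂ) * Z) σ) :=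
      (hI.intOn l1 hfin).add (hI.intOn l2 hfin)
    refine integral_mono hc ha ?_
    intro w
    show ‖l1 - l2‖ ≤ ‖ν w - l1‖ + ‖ν w - l2‖
    calc ‖l1 - l2‖ = ‖(ν w - l2) - (ν w - l1)‖ := by congr 1; ring
      _ ≤ ‖ν w - l2‖ + ‖ν w - l1‖ := norm_sub_le _ _
      _ = ‖ν w - l1‖ + ‖ν w - l2‖ := add_comm _ _
  rw [integral_add (hI.intOn l1 hfin) (hI.intOn l2 hfin), setIntegral_const, smul_eq_mul,
    vol_ball_real _ hσ0.le] at h3
  have h4 : ‖l1 - l2‖ = ‖ν x‖ * ‖ph (deriv G1 Z) - ph (deriv G2 (-Z))‖ := by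
    rw [← norm_mul, mul_sub]
  rw [h4] at h3
  have h5 := Real.pi_gt_three
  have h6 : Real.pi * σ ^ 2 * (‖ν x‖ * ‖ph (deriv G1 Z) - ph (deriv G2 (-Z))‖) ≤
      2 * θ * ‖ν x‖ * σ ^ 2 := by linarith
  have h7 : 0 < σ ^ 2 * ‖ν x‖ := by positivity
  have h8 : (σ ^ 2 * ‖ν x‖) * (Real.pi * ‖ph (deriv G1 Z) - ph (deriv G2 (-Z))‖) ≤
      (σ ^ 2 * ‖ν x‖) * (2 * θ) := by linarith
  have h9 := le_of_mul_le_mul_left h8 h7
  have h10 : 0 ≤ ‖ph (deriv G1 Z) - ph (deriv G2 (-Z))‖ := norm_nonneg _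
  nlinarith

end Pool.Agent.J4H79.AS
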