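import Pool.Agent.J4H79.AS.Fnc
import Pool.Agent.J4H79.AS.Sym

/-!
# Project AS (helper16), job SM (helper79)
-/

set_option autoImplicit false
set_option linter.all false
open Set Filter Topology Metric Complex MeasureTheory
open scoped ComplexConjugate

namespace Pool.Agent.J4H79.AS

open Pool.Agent.J4H16 Pool.Agent.W746.LD Pool.Agent.J4H16.AS

variable {n : ℕ} {c : ℂ} {r : ℝ}

/-- the orbits near a point outside the filled Julia set stay away from the critical point -/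
lemma low_loc (h : Q n c r) {y0 : ℂ} (hy0 : y0 ∉ J4H16.K n c) :
    ∃ d : ℝ, 0 < d ∧ ∀ᶠ y in 𝓝 y0, ∀ t, d ≤ ‖orb n c y t‖ := by
  obtain ⟨t0, ht0⟩ := not_mem_K.mp hy0
  have hcont : ∀ t, Continuous fun y : ℂ => ‖orb n c y t‖ := fun t =>
    (differentiable_orb t).continuous.norm
  have hfin : ∀ N : ℕ, ∃ d : ℝ, 0 < d ∧ ∀ᶠ y in 𝓝 y0, ∀ t < N, d ≤ ‖orb n c y t‖ := by
    intro N
    induction N with
    | zero => exact ⟨1, one_pos, Eventually.of_forall fun y t ht => absurd ht (Nat.not_lt_zero t)⟩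
    | succ N ih =>
      obtain ⟨d, hd, hd'⟩ := ih
      have h1 : 0 < ‖orb n c y0 N‖ := norm_pos_iff.mpr (h.orb_ne_zero hy0 N)
      have h2 : ∀ᶠ y in 𝓝 y0, ‖orb n c y0 N‖ / 2 < ‖orb n c y N‖ :=
        (hcont N).continuousAt.eventually (lt_mem_nhds (by linarith))
      refine ⟨min d (‖orb n c y0 N‖ / 2), lt_min hd (by linarith), ?_⟩
      filter_upwards [hd', h2] with y hy1 hy2 t ht
      rcases Nat.lt_succ_iff_lt_or_eq.mp ht with ht | rfl
      · exact (min_le_left _ _).trans (hy1 t ht)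
      · exact (min_le_right _ _).trans hy2.le
  obtain ⟨d, hd, hd'⟩ := hfin t0
  have h3 : ∀ᶠ y in 𝓝 y0, 3 < ‖orb n c y t0‖ :=
    (hcont t0).continuousAt.eventually (lt_mem_nhds ht0)
  refine ⟨min d 3, lt_min hd (by norm_num), ?_⟩
  filter_upwards [hd', h3] with y hy1 hy2 t
  rcases lt_or_ge t t0 with ht | ht
  · exact (min_le_left _ _).trans (hy1 t ht)
  · refine (min_le_right _ _).trans ?_
    obtain ⟨m, rfl⟩ := Nat.exists_eq_add_of_le ht
    exact (orb_grow h.hn h.c2 hy2 m).2.le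

lemma low_compact (h : Q n c r) {S : Set ℂ} (hS : IsCompact S) (hSK : ∀ y ∈ S, y ∉ J4H16.K n c) :
    ∃ d : ℝ, 0 < d ∧ ∀ y ∈ S, ∀ t, d ≤ ‖orb n c y t‖ := by
  suffices key : ∃ d : ℝ, 0 < d ∧ ∀ y ∈ S, y ∈ S → ∀ t, d ≤ ‖orb n c y t‖ by
    obtain ⟨d, hd1, hd2⟩ := key
    exact ⟨d, hd1, fun y hy => hd2 y hy hy⟩
  refine hS.induction_on
    (p := fun T => ∃ d : ℝ, 0 < d ∧ ∀ y ∈ S, y ∈ T → ∀ t, d ≤ ‖orb n c y t‖) ?_ ?_ ?_ ?_
  · exact ⟨1, one_pos, fun y _ hy => absurd hy (Set.notMem_empty y)⟩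
  · rintro s t hst ⟨d, hd1, hd2⟩
    exact ⟨d, hd1, fun y hy hys => hd2 y hy (hst hys)⟩
  · rintro s t ⟨d, hd1, hd2⟩ ⟨d', hd1', hd2'⟩
    refine ⟨min d d', lt_min hd1 hd1', ?_⟩
    intro y hy hys k
    rcases hys with hys | hys
    · exact (min_le_left _ _).trans (hd2 y hy hys k)
    · exact (min_le_right _ _).trans (hd2' y hy hys k)
  · intro y0 hy0
    obtain ⟨d, hd1, hd2⟩ := low_loc h (hSK y0 hy0)
    exact ⟨_, mem_nhdsWithin_of_mem_nhds hd2, d, hd1, fun y _ hy => hy⟩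

lemma low_all (h : Q n c r) {η : ℝ} (hη : 0 < η) :
    ∃ d : ℝ, 0 < d ∧ ∀ y : ℂ, (∀ u ∈ J4H16.K n c, η ≤ ‖y - u‖) → ∀ t, d ≤ ‖orb n c y t‖ := by
  have hS : IsCompact (closedBall (0 : ℂ) 3 ∩ {y : ℂ | ∀ u ∈ J4H16.K n c, η ≤ ‖y - u‖}) := by
    apply (isCompact_closedBall (0 : ℂ) 3).inter_right
    have e : {y : ℂ | ∀ u ∈ J4H16.K n c, η ≤ ‖y - u‖} = ⋂ u ∈ J4H16.K n c, {y : ℂ | η ≤ ‖y - u‖} := by
      ext y; simp
    rw [e]
    exact isClosed_biInter fun u _ => isClosed_le continuous_const (by fun_prop)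
  obtain ⟨d, hd1, hd2⟩ := low_compact h hS (by
    rintro y ⟨-, hy⟩ hK
    have := hy y hK
    rw [sub_self, norm_zero] at this
    linarith)
  refine ⟨min d 3, lt_min hd1 (by norm_num), ?_⟩
  intro y hy t
  rcases le_or_gt ‖y‖ 3 with h3 | h3
  · exact (min_le_left _ _).trans (hd2 y ⟨by rwa [mem_closedBall, dist_zero_right], hy⟩ t)
  · refine (min_le_right _ _).trans ?_
    have := (orb_grow h.hn h.c2 (z := y) (k := 0) (by simpa using h3) t).2
    rw [zero_add] at this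
    exact this.le

theorem t_SM : Pool.Agent.J4H16.AS.S_SM := by
  intro n c r h hdn x B d M ε hd hε
  obtain ⟨C0, c0, K⟩ := exists_KC
  have hc0 := K.pos
  set η : ℝ := c0 * d * ε / 2 with hη
  have hη0 : 0 < η := by positivity
  obtain ⟨d1, hd1, hnn⟩ := h.nn hdn (ε := η) hη0
  obtain ⟨d2, hd2, hlow⟩ := low_all h hη0
  refine ⟨min (d1 / (|B| + d)) (d2 / (2 * (|B| + 1))), by positivity, ?_⟩
  intro s m Z G hs hss0 hZ hG
  by_contra hcon
  push Not at hcon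
  have hB : ‖Z‖ ≤ |B| := hZ.trans (le_abs_self _)
  have hs1 : s * (|B| + d) ≤ d1 := by
    have := hss0.trans (min_le_left _ _)
    rwa [le_div_iff₀ (by positivity)] at this
  have hs2 : s * (2 * (|B| + 1)) ≤ d2 := by
    have := hss0.trans (min_le_right _ _)
    rwa [le_div_iff₀ (by positivity)] at this
  by_cases hcase : ∃ u ∈ J4H16.K n c, ‖G Z - u‖ < η
  · obtain ⟨u, hu, hu2⟩ := hcase
    apply hnn u hu m 0
    intro z hz
    rw [mem_ball, dist_eq_norm] at hz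
    have h1 : ‖z - G Z‖ < c0 * d * ‖deriv G Z‖ := by
      calc ‖z - G Z‖ = ‖(z - u) - (G Z - u)‖ := by congr 1; ring
        _ ≤ ‖z - u‖ + ‖G Z - u‖ := norm_sub_le _ _
        _ < η + η := add_lt_add hz hu2
        _ = c0 * d * ε := by rw [hη]; ring
        _ ≤ c0 * d * ‖deriv G Z‖ := by gcongr
    obtain ⟨W, hW, hW2⟩ := KC.cover K hd (hG.univ hs) (a := z) h1
    rw [← hW2, hG.eq W hW, mem_ball, dist_zero_right, norm_mul, Complex.norm_real,
      Real.norm_of_nonneg hs.le]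
    have h2 : ‖W‖ < |B| + d := by
      rw [mem_ball, dist_eq_norm] at hW
      calc ‖W‖ = ‖(W - Z) + Z‖ := by congr 1; ring
        _ ≤ ‖W - Z‖ + ‖Z‖ := norm_add_le _ _
        _ < d + |B| := by linarith
        _ = |B| + d := by ring
    calc s * ‖W‖ < s * (|B| + d) := by gcongr
      _ ≤ d1 := hs1
  · push Not at hcase
    have h1 := hlow (G Z) hcase m
    rw [hG.eq Z (mem_ball_self hd), norm_mul, Complex.norm_real, Real.norm_of_nonneg hs.le] at h1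
    have h2 : s * ‖Z‖ ≤ s * |B| := by gcongr
    nlinarith [abs_nonneg B]

theorem t_FNC' : Pool.Agent.J4H16.AS.S_FNC := t_FNC t_SM

theorem t_SYM' : Pool.Agent.J4H16.AS.S_SYM := t_SYM t_SM

end Pool.Agent.J4H79.AS
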