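import Pool.Agent.J4H16.AS.Defs2

/-!
# Project AS (helper16), job FNC (helper79)
-/

set_option autoImplicit false
set_option linter.all false
open Set Filter Topology Metric Complex MeasureTheory
open scoped ComplexConjugate

namespace Pool.Agent.J4H79.AS

open Pool.Agent.J4H16 Pool.Agent.W746.LD Pool.Agent.J4H16.AS

/-- two branches with the same value at a point have the same derivative there -/
lemma same_deriv {n : ℕ} {c x : ℂ} {s : ℝ} {m : ℕ} {Z : ℂ} {d d' M M' : ℝ} {G G' : ℂ → ℂ} (hn : 2 ≤ n)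
    (hs : 0 < s) (hd : 0 < d) (hd' : 0 < d') (h : SB n c x s m Z d M G) (h' : SB n c x s m Z d' M' G')
    (he : G Z = G' Z) : deriv G Z = deriv G' Z := by
  have hsC : (s : ℂ) ≠ 0 := by exact_mod_cast hs.ne'
  set e : ℝ := min d d' with hedef
  have he0 : 0 < e := lt_min hd hd'
  have b1 := (h.mono (min_le_left d d') le_rfl).br hs
  have b2 := (h'.mono (min_le_right d d') le_rfl).br hs
  have hZs : (s : ℂ) * Z / s = Z := by field_simp
  have huq := Br.unique hn b1 b2 (w0 := (s : ℂ) * Z) (mem_ball_self (by positivity)) (by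
    simp only [hZs]
    exact he)
  apply Filter.EventuallyEq.deriv_eq
  filter_upwards [isOpen_ball.mem_nhds (mem_ball_self (x := Z) he0)] with W hW
  have hW' : (s : ℂ) * W ∈ ball ((s : ℂ) * Z) (s * e) := by
    rw [mem_ball, dist_eq_norm] at hW ⊢
    rw [← mul_sub, norm_mul, Complex.norm_real, Real.norm_of_nonneg hs.le]
    gcongr
  have h1 := huq _ hW'
  have hWs : (s : ℂ) * W / s = W := by field_simp
  simp only [hWs] at h1
  exact h1

theorem t_FNC (SM : Pool.Agent.J4H16.AS.S_SM) : Pool.Agent.J4H16.AS.S_FNC := by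
  intro n c r ν A x hQ hdn hI hx θ hθ
  obtain ⟨C0, c0, K⟩ := exists_KC
  have hC0 := K.one_le
  refine ⟨5 + 64 * (C0 + 2) / θ, by positivity, ?_⟩
  intro r0 δ d M hr0 hδ hδ1 hd hM
  have hp1 : 0 < 64 * (C0 + 2) / θ := by positivity
  have hr00 : 0 < r0 := by linarith
  -- the radius
  obtain ⟨k, hk⟩ := exists_rad (θ := 1 / (1 + δ)) (by rw [div_lt_one (by linarith)]; linarith)
  set M' : ℝ := (2 * r0 * C0 ^ (2 * k) + M) * C0 ^ k with hM'
  have hM'0 : 0 ≤ M' := by positivity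
  obtain ⟨δ0, hδ0, hN⟩ := near_const_ph hI hQ.hn K hx hθ hM'0
  obtain ⟨s0, hs0, hS⟩ := SM n c r hQ hdn x 0 r0 M' δ0 hr00 hδ0
  refine ⟨s0, hs0, ?_⟩
  intro s m G hs hss0 hG hF
  obtain ⟨G', g1, g2, g3⟩ := hF
  rw [zero_add] at g3
  have hsC : (s : ℂ) ≠ 0 := by exact_mod_cast hs.ne'
  set R : ℝ := r0 * (1 + δ) with hR
  have hR0 : 0 < R := by positivity
  have hrR : r0 < R := by rw [hR]; nlinarith
  -- the branch at r0
  have hr0m : ‖(r0 : ℂ)‖ = r0 := by rw [Complex.norm_real, Real.norm_of_nonneg hr00.le]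
  have hG'r : SB n c x s m (r0 : ℂ) (R - r0) (‖G' r0 - x‖ / ‖deriv G' r0‖) G' := by
    have hsub : ball (r0 : ℂ) (R - r0) ⊆ ball 0 R := by
      apply ball_subset_ball'
      rw [dist_zero_right, hr0m]
      linarith
    refine ⟨g1.mono hsub, fun W hW => g2 W (hsub hW), ?_⟩
    have hne : deriv G' (r0 : ℂ) ≠ 0 := by
      have hu : SB n c (G' 0) s m 0 R 0 G' := ⟨g1, g2, by simp⟩
      exact hu.deriv_ne hs (by rw [mem_ball, dist_zero_right, hr0m]; exact hrR)
    have hp := norm_pos_iff.mpr hne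
    rw [div_mul_cancel₀ _ hp.ne']
  have hder : deriv G' (r0 : ℂ) = deriv G r0 :=
    same_deriv hQ.hn hs (by linarith) hd hG'r hG g3
  -- univalence
  have hu0 : SB n c (G' 0) s m 0 R 0 G' := ⟨g1, g2, by simp⟩
  have hu : Univ G' 0 R := hu0.univ hs
  have hkr : r0 ≤ (1 - (3 / 4) ^ k) * R := by
    have h1 : 1 / (1 + δ) * R ≤ (1 - (3 / 4) ^ k) * R := mul_le_mul_of_nonneg_right hk hR0.le
    have h2 : 1 / (1 + δ) * R = r0 := by rw [hR]; field_simp
    linarith
  have d1 := KC.rad K hR0 hu k (r0 : ℂ) (by rw [hr0m]; exact hkr)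
  have d2 := KC.rad_lip2 K hR0 hu k hkr (x := 0) (u := (r0 : ℂ)) (by rw [norm_zero]; exact hr00.le)
    (by rw [hr0m])
  have hcone : ‖G' 0 - x‖ ≤ M' * ‖deriv G' 0‖ := by
    have h1 := hG.cone
    rw [← g3, ← hder] at h1
    calc ‖G' 0 - x‖ = ‖(G' 0 - G' r0) + (G' r0 - x)‖ := by congr 1; ring
      _ ≤ ‖G' 0 - G' r0‖ + ‖G' r0 - x‖ := norm_add_le _ _
      _ ≤ 2 * r0 * C0 ^ (2 * k) * ‖deriv G' r0‖ + M * ‖deriv G' r0‖ := add_le_add d2 h1
      _ = (2 * r0 * C0 ^ (2 * k) + M) * ‖deriv G' r0‖ := by ring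
      _ ≤ (2 * r0 * C0 ^ (2 * k) + M) * (C0 ^ k * ‖deriv G' 0‖) :=
          mul_le_mul_of_nonneg_left d1.1 (by positivity)
      _ = M' * ‖deriv G' 0‖ := by rw [hM']; ring
  have hsb0 : SB n c x s m 0 r0 M' G' :=
    ⟨g1.mono (ball_subset_ball hrR.le), fun W hW => g2 W (ball_subset_ball hrR.le hW), hcone⟩
  have hsb1 : SB n c x s m 0 R M' G' := ⟨g1, g2, hcone⟩
  have hsm := (hS s m 0 G' hs hss0 (by simp) hsb0).le
  have hbr := hsb1.br hs
  rw [mul_zero] at hbr
  have hder0 : deriv (fun w => G' (w / s)) 0 = deriv G' 0 / s := by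
    have h3 : HasDerivAt G' (deriv G' 0) ((0 : ℂ) / s) := by
      rw [zero_div]; exact hsb1.hasDerivAt (mem_ball_self hR0)
    have h4 : HasDerivAt (fun w : ℂ => w / s) (1 / s) 0 := (hasDerivAt_id _).div_const _
    have h5 := h3.comp 0 h4
    rw [mul_one_div] at h5
    exact h5.deriv
  have hn0 : ‖deriv (fun w => G' (w / s)) 0‖ = ‖deriv G' 0‖ / s := by
    rw [hder0, norm_div, Complex.norm_real, Real.norm_of_nonneg hs.le]
  have h6 := hN m 0 (s * R) s (fun w => G' (w / s)) hs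
    (by
      have : 4 < R := by linarith
      nlinarith)
    (by
      have h7 : 64 * (C0 + 2) ≤ θ * R := by
        have h8 : 64 * (C0 + 2) / θ ≤ R := by linarith
        rw [div_le_iff₀ hθ] at h8
        linarith
      calc 64 * (C0 + 2) * s ≤ θ * R * s := by gcongr
        _ = θ * (s * R) := by ring)
    hbr
    (by
      rw [hn0]
      simp only [zero_div]
      refine hcone.trans (le_of_eq ?_)
      field_simp)
    (by
      rw [hn0]
      calc s * (‖deriv G' 0‖ / s) = ‖deriv G' 0‖ := by field_simp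
        _ ≤ δ0 := hsm)
  refine ⟨ν x * ph (deriv (fun w => G' (w / s)) 0), ?_, h6⟩
  rw [norm_mul, norm_ph, mul_one]
  exact hbr.deriv_ne (mem_ball_self (by positivity))

end Pool.Agent.J4H79.AS
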